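import Pool.Agent.T2H16.SA.Thin

/-! A confined arc does not change the number of half turns. -/

set_option autoImplicit false
open Complex Set Topology Metric
open scoped ComplexConjugate

namespace Pool.Agent.T2H16

open Pool.Agent.H763R2 Pool.Agent.H763R2.An Pool.Agent.W675.Peg Pool.Agent.TH569.Peg
open Pool.Agent.Y535.PEG
open Pool.Agent.H763R2.Dm (NoSq floor_const b_true b_false)

variable {c q : ℝ → ℂ} {a b R : ℝ} {θ : ℝ → ℝ → ℝ} {g : ℤ}

theorem fin_fl {x : ℝ} (h : 0 < Real.cos x * Real.sin x) (h1 : Real.pi / 2 < x)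
    (h2 : x < 2 * Real.pi) : ⌊x / Real.pi⌋ = 1 := by
  have hπ := Real.pi_pos
  obtain ⟨a1, a2⟩ := half_fl h
  set n := ⌊x / Real.pi⌋
  have h3 : (n : ℝ) * Real.pi < 2 * Real.pi := by linarith
  have h4 : 0 * Real.pi < (n : ℝ) * Real.pi := by linarith
  have h5 : (n : ℝ) < 2 := lt_of_mul_lt_mul_right h3 hπ.le
  have h6 : (0 : ℝ) < n := lt_of_mul_lt_mul_right h4 hπ.le
  have h7 : n < 2 := by exact_mod_cast h5
  have h8 : 0 < n := by exact_mod_cast h6
  omega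

theorem third {φ : ℝ} {m : ℤ} (hm : ⌊(φ - Real.pi / 2) / (2 * Real.pi)⌋ = m)
    (h1 : Real.cos φ ≤ 0) (h2 : Real.sin φ ≤ 0) :
    Real.pi ≤ φ - m * (2 * Real.pi) ∧ φ - m * (2 * Real.pi) ≤ 3 * Real.pi / 2 := by
  have hπ := Real.pi_pos
  rw [Int.floor_eq_iff, le_div_iff₀ (by positivity), div_lt_iff₀ (by positivity)] at hm
  obtain ⟨a1, a2⟩ := hm
  have e1 : Real.sin (φ - Real.pi / 2 - m * (2 * Real.pi)) = - Real.cos φ := by
    rw [Real.sin_sub_int_mul_two_pi, Real.sin_sub_pi_div_two]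
  have e2 : Real.cos (φ - Real.pi / 2 - m * (2 * Real.pi)) = Real.sin φ := by
    rw [Real.cos_sub_int_mul_two_pi, Real.cos_sub_pi_div_two]
  obtain ⟨ψ, hψ⟩ : ∃ ψ, ψ = φ - Real.pi / 2 - m * (2 * Real.pi) := ⟨_, rfl⟩
  rw [← hψ] at e1 e2
  have b1 : 0 ≤ ψ := by linarith
  have b2 : ψ < 2 * Real.pi := by linarith
  have b3 : ψ ≤ Real.pi := by
    by_contra hcon
    push Not at hcon
    have := Real.sin_pos_of_pos_of_lt_pi (x := ψ - Real.pi) (by linarith) (by linarith)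
    rw [Real.sin_sub_pi] at this
    linarith
  have b4 : Real.pi / 2 ≤ ψ := by
    by_contra hcon
    push Not at hcon
    have := Real.cos_pos_of_mem_Ioo (x := ψ) ⟨by linarith, by linarith⟩
    linarith
  constructor <;> linarith

theorem sgn_end {τ M1 M2 N1 N2 : ℝ} (hτ : τ = 1 ∨ τ = -1) (h1 : 0 ≤ τ * (M1 * N1))
    (h2 : 0 ≤ τ * (M2 * N2)) (hM : 0 < M1 * M2) (hN : ¬ (N1 = 0 ∧ N2 = 0)) (h3 : N1 ≤ 0)
    (h4 : N1 = 0 → N2 ≤ 0) : N2 ≤ 0 ∧ 0 < τ * (M1 * N1 + M2 * N2) := by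
  have t2 : τ * τ = 1 := by rcases hτ with rfl | rfl <;> norm_num
  have t0 : τ ≠ 0 := by rintro rfl; norm_num at t2
  have m1 : M1 ≠ 0 := left_ne_zero_of_mul hM.ne'
  have m2 : M2 ≠ 0 := right_ne_zero_of_mul hM.ne'
  have h5 : 0 ≤ N1 * N2 := by
    have h6 := mul_nonneg h1 h2
    have h7 : τ * (M1 * N1) * (τ * (M2 * N2)) = (M1 * M2) * (N1 * N2) := by
      linear_combination (M1 * N1 * (M2 * N2)) * t2
    rw [h7] at h6
    exact nonneg_of_mul_nonneg_right h6 hM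
  constructor
  · rcases h3.lt_or_eq with h | h
    · by_contra hcon
      push Not at hcon
      nlinarith
    · exact h4 h
  · have h6 : 0 ≤ τ * (M1 * N1 + M2 * N2) := by rw [mul_add]; linarith
    rcases h6.lt_or_eq with h | h
    · exact h
    · exfalso
      rw [mul_add] at h
      have e1 : τ * (M1 * N1) = 0 := by linarith
      have e2 : τ * (M2 * N2) = 0 := by linarith
      simp only [mul_eq_zero, t0, m1, m2, false_or] at e1 e2
      exact hN ⟨e1, e2⟩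

/-- the final comparison -/
theorem cmp_end {x φ : ℝ} {j m e : ℤ} (he : e = 0 ∨ e = 1)
    (h : |x - (φ + e * Real.pi) - j * (2 * Real.pi)| < Real.pi / 2)
    (hm : ⌊(φ - Real.pi / 2) / (2 * Real.pi)⌋ = m)
    (h1 : Real.cos φ ≤ 0) (h2 : Real.sin φ ≤ 0) (hx : 0 < Real.cos x * Real.sin x) :
    ⌊x / Real.pi⌋ = 1 + (2 * (j + m) + e) := by
  have hπ := Real.pi_pos
  obtain ⟨a1, a2⟩ := third hm h1 h2
  rw [abs_lt] at h
  have e0 : 0 < Real.cos (x - ((2 * (j + m) + e : ℤ) : ℝ) * Real.pi) *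
      Real.sin (x - ((2 * (j + m) + e : ℤ) : ℝ) * Real.pi) := by
    rcases he with rfl | rfl
    · rw [show x - ((2 * (j + m) + 0 : ℤ) : ℝ) * Real.pi = x - ((j + m : ℤ) : ℝ) * (2 * Real.pi) by
        push_cast; ring, Real.sin_sub_int_mul_two_pi, Real.cos_sub_int_mul_two_pi]
      exact hx
    · rw [show x - ((2 * (j + m) + 1 : ℤ) : ℝ) * Real.pi =
        x - Real.pi - ((j + m : ℤ) : ℝ) * (2 * Real.pi) by push_cast; ring,
        Real.sin_sub_int_mul_two_pi, Real.cos_sub_int_mul_two_pi, Real.sin_sub_pi,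
        Real.cos_sub_pi]
      linarith
  have e1 := fin_fl e0 (by push_cast; linarith [h.1]) (by push_cast; linarith [h.2])
  rw [sub_div, mul_div_assoc, div_self hπ.ne', mul_one, Int.floor_sub_intCast] at e1
  omega

end Pool.Agent.T2H16
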