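import Pool.Agent.T2H16.SA.Arc

/-! A confined arc does not change the number of half turns. -/

set_option autoImplicit false
open Complex Set Topology Metric
open scoped ComplexConjugate

namespace Pool.Agent.T2H16

open Pool.Agent.H763R2 Pool.Agent.H763R2.An Pool.Agent.W675.Peg Pool.Agent.TH569.Peg
open Pool.Agent.Y535.PEG
open Pool.Agent.H763R2.Dm (NoSq floor_const b_true b_false)

variable {c q : ℝ → ℂ} {a b R : ℝ} {θ : ℝ → ℝ → ℝ} {g : ℤ}

theorem cont_pos {h : ℝ → ℝ} (hc : Continuous h) (h0 : ∀ s ∈ Ioo (0:ℝ) 1, 0 ≤ h s) :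
    ∀ s ∈ Icc (0:ℝ) 1, 0 ≤ h s := by
  have : Icc (0:ℝ) 1 ⊆ {s | 0 ≤ h s} := by
    rw [← closure_Ioo (zero_ne_one)]
    exact closure_minimal h0 (isClosed_le continuous_const hc)
  exact this

theorem cl_nn (x : ℝ) : 0 ≤ cl x := le_max_left _ _
theorem cl_le (x : ℝ) : cl x ≤ 1 := max_le zero_le_one (min_le_left _ _)
theorem cl_mono {x y : ℝ} (h : x ≤ y) : cl x ≤ cl y :=
  max_le_max le_rfl (min_le_min le_rfl h)

theorem tri_pre (a b ε : ℝ) :
    IsPreconnected {p : ℝ × ℝ | a < p.1 ∧ p.1 ≤ p.2 ∧ p.2 < b ∧ p.2 < p.1 + ε} := by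
  have e : {p : ℝ × ℝ | a < p.1 ∧ p.1 ≤ p.2 ∧ p.2 < b ∧ p.2 < p.1 + ε} =
      ((Ioi a ×ˢ Iio b) ∩ {p : ℝ × ℝ | 0 ≤ (-1 : ℝ) * p.1 + p.2}) ∩
        {p : ℝ × ℝ | (-1 : ℝ) * p.1 + p.2 < ε} := by
    ext p
    simp only [mem_ofPred_eq, mem_inter_iff, mem_prod, mem_Ioi, mem_Iio]
    constructor
    · rintro ⟨a1, a2, a3, a4⟩
      exact ⟨⟨⟨a1, a3⟩, by linarith⟩, by linarith⟩
    · rintro ⟨⟨⟨a1, a2⟩, a3⟩, a4⟩
      exact ⟨a1, by linarith, a2, by linarith⟩
  rw [e]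
  have hl : IsLinearMap ℝ (fun p : ℝ × ℝ => (-1 : ℝ) * p.1 + p.2) :=
    ⟨fun p q => by simp only [Prod.fst_add, Prod.snd_add]; ring,
      fun k p => by simp only [Prod.smul_fst, Prod.smul_snd, smul_eq_mul]; ring⟩
  exact ((((convex_Ioi a).prod (convex_Iio b)).inter (convex_halfSpace_ge hl 0)).inter
    (convex_halfSpace_lt hl ε)).isPreconnected

/-- the sides with respect to the two curves correspond for short chords -/
theorem sides (K : Cl c q a b R) (J : Inj c) (F : Cf c a b) (hR : 2 ≤ R) (Wa : Wide c a)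
    (Wb : Wide c b) (hRc : ∀ t ∈ Icc a b, ‖c t‖ < R) :
    ∃ ε > 0, ∃ τ : ℝ, (τ = 1 ∨ τ = -1) ∧ ∀ x y, a < x → x < y → y < b → y < x + ε →
      0 ≤ τ * (mgc c (DD c x y) * mgc q (DD q x y)) ∧
      0 ≤ τ * (mgc c (CC c x y) * mgc q (CC q x y)) ∧
      (mgc c (DD c x y) = 0 ↔ mgc q (DD q x y) = 0) ∧
      (mgc c (CC c x y) = 0 ↔ mgc q (CC q x y) = 0) := by
  obtain ⟨ε, hε, ht⟩ := thin K J F hR Wa Wb hRc
  have hab := K.ab
  set T : Set (ℝ × ℝ) := {p : ℝ × ℝ | a < p.1 ∧ p.1 ≤ p.2 ∧ p.2 < b ∧ p.2 < p.1 + ε} with hT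
  set S : Set ℂ := (fun p : ℝ × ℝ => DD c p.1 p.2) '' T ∪ (fun p : ℝ × ℝ => CC c p.1 p.2) '' T
    with hS
  have hTp : IsPreconnected T := tri_pre a b ε
  have hmid : (((a + b) / 2, (a + b) / 2) : ℝ × ℝ) ∈ T :=
    ⟨by simp only; linarith, le_rfl, by simp only; linarith, by simp only; linarith⟩
  have hSp : IsPreconnected S := by
    refine IsPreconnected.union (c ((a + b) / 2)) ⟨_, hmid, ?_⟩ ⟨_, hmid, ?_⟩
      (hTp.image _ K.L.DD_cont.continuousOn) (hTp.image _ K.L.CC_cont.continuousOn)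
    · simp only [DD_eq]; ring
    · simp only [CC_eq]; ring
  have hav : ∀ z ∈ S, ∀ w, (w ∈ c '' Icc b (a + 1) ∨ w ∈ q '' Icc b (a + 1)) → z ≠ w := by
    rintro z (⟨p, ⟨a1, a2, a3, a4⟩, rfl⟩ | ⟨p, ⟨a1, a2, a3, a4⟩, rfl⟩) w hw
    · exact (ht p.1 p.2 a1 a2 a3 a4 w hw).1
    · exact (ht p.1 p.2 a1 a2 a3 a4 w hw).2
  obtain ⟨τ, hτ, hse⟩ := side_eq K.L K.L' K.ab K.ba K.eq hSp
    (fun z hz hw => hav z hz z (Or.inl hw) rfl) (fun z hz hw => hav z hz z (Or.inr hw) rfl)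
  refine ⟨ε, hε, τ, hτ, fun x y h1 h2 h3 h4 => ?_⟩
  have ex := K.eq x ⟨h1.le, by linarith⟩
  have ey := K.eq y ⟨by linarith, h3.le⟩
  have eD : DD q x y = DD c x y := by rw [DD_eq, DD_eq, ex, ey]
  have eC : CC q x y = CC c x y := by rw [CC_eq, CC_eq, ex, ey]
  rw [eD, eC]
  have key : ∀ z ∈ S, 0 ≤ τ * (mgc c z * mgc q z) ∧ (mgc c z = 0 ↔ mgc q z = 0) := by
    intro z hz
    obtain ⟨i1, i2⟩ := hse z hz
    have z1 := (mgc_sg K.L).zero K.L (z := z)
    have z2 := (mgc_sg K.L').zero K.L' (z := z)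
    refine ⟨?_, by rw [z1, z2, i1]⟩
    by_cases hz1 : z ∈ range c
    · rw [z1.2 hz1]; simp
    · exact (i2 hz1).le
  have k1 := key _ (Or.inl ⟨(x, y), ⟨h1, h2.le, h3, h4⟩, rfl⟩ : DD c x y ∈ S)
  have k2 := key _ (Or.inr ⟨(x, y), ⟨h1, h2.le, h3, h4⟩, rfl⟩ : CC c x y ∈ S)
  exact ⟨k1.1, k2.1, k1.2, k2.2⟩

theorem cos_cmp {τ M1 M2 N1 N2 t f ρ r : ℝ} {e : ℤ} (hτ : (τ = 1 ∧ e = 0) ∨ (τ = -1 ∧ e = 1))
    (hρ : 0 < ρ) (hr : 0 < r) (e1 : M1 = ρ * Real.cos t) (e2 : M2 = ρ * Real.sin t)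
    (e3 : N1 = r * Real.cos f) (e4 : N2 = r * Real.sin f)
    (h : 0 < τ * (M1 * N1 + M2 * N2)) : 0 < Real.cos (t - (f + e * Real.pi)) := by
  have h1 : M1 * N1 + M2 * N2 = ρ * r * Real.cos (t - f) := by
    rw [Real.cos_sub, e1, e2, e3, e4]; ring
  rw [h1] at h
  have h2 := mul_pos hρ hr
  rcases hτ with ⟨rfl, rfl⟩ | ⟨rfl, rfl⟩
  · rw [one_mul] at h
    rw [Int.cast_zero, zero_mul, add_zero]
    exact (mul_pos_iff_of_pos_left h2).1 h
  · rw [Int.cast_one, one_mul, ← sub_sub, Real.cos_sub_pi]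
    refine (mul_pos_iff_of_pos_left h2).1 ?_
    linarith

/-- a confined arc from `0` to `1` does not change the number of half turns -/
theorem arc_const (L : Loop c) (J : Inj c) (nosq : NoSq (range c)) (A : Ang c (mgc c) θ g)
    (hab : a < b) (hba : b < a + 1) (ha : c a = 0) (hb : c b = 1) (F : Cf c a b)
    (Wa : Wide c a) (Wb : Wide c b) {k k' : ℤ} (hk : WL θ a k) (hk' : WL θ b k') : k = k' := by
  have hπ := Real.pi_pos
  obtain ⟨M, hM⟩ := isCompact_Icc.exists_bound_of_continuousOn (s := Icc a b) L.cont.continuousOn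
  have M0 : 0 ≤ M := (norm_nonneg _).trans (hM a ⟨le_rfl, hab.le⟩)
  obtain ⟨q, K⟩ := exCl L hab hba ha hb (3 * M + 2)
  obtain ⟨ε, hε, τ, hτ, hs⟩ := sides K J F (by linarith) Wa Wb
    (fun t ht => by linarith [hM t ht])
  obtain ⟨ρa, hρa, -, wa⟩ := wide_sign L J Wa
  obtain ⟨ρb, hρb, -, wb⟩ := wide_sign L J Wb
  obtain ⟨σa, hσa, ka⟩ := hk
  obtain ⟨σb, hσb, kb⟩ := hk'
  obtain ⟨η1, hη1, c1⟩ := Metric.continuous_iff.1 L.cont a 1 one_pos
  obtain ⟨η2, hη2, c2⟩ := Metric.continuous_iff.1 L.cont b 1 one_pos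
  simp only [dist_eq_norm, Real.norm_eq_abs] at c1 c2
  obtain ⟨e, he, e1, e2, e3, e4, e5, e6, e7, e8⟩ : ∃ e > 0, e < ε ∧ e < ρa ∧ e < ρb ∧ e < σa ∧
      e < σb ∧ e < η1 ∧ e < η2 ∧ e < b - a := by
    have hd : 0 < b - a := by linarith
    obtain ⟨m, hm⟩ : ∃ m, m = min (min (min ε ρa) (min ρb σa)) (min (min σb η1) (min η2 (b - a))) :=
      ⟨_, rfl⟩
    have m0 : 0 < m := by rw [hm]; positivity
    have l1 : m ≤ min (min ε ρa) (min ρb σa) := hm ▸ min_le_left _ _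
    have l2 : m ≤ min (min σb η1) (min η2 (b - a)) := hm ▸ min_le_right _ _
    obtain ⟨l3, l4⟩ := le_min_iff.1 l1
    obtain ⟨l5, l6⟩ := le_min_iff.1 l2
    obtain ⟨n1, n2⟩ := le_min_iff.1 l3
    obtain ⟨n3, n4⟩ := le_min_iff.1 l4
    obtain ⟨n5, n6⟩ := le_min_iff.1 l5
    obtain ⟨n7, n8⟩ := le_min_iff.1 l6
    exact ⟨m / 2, by linarith, by linarith, by linarith, by linarith, by linarith, by linarith,
      by linarith, by linarith, by linarith⟩
  obtain ⟨w, hw⟩ : ∃ w, w = b - a - e := ⟨_, rfl⟩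
  have w0 : 0 < w := by linarith
  -- the homotopy
  set X : ℝ × ℝ → ℝ := fun p => (1 - cl p.2) * (a + cl p.1 * w) + cl p.2 * (a + cl (2 * p.1 - 1) * w)
    with hX
  set Y : ℝ × ℝ → ℝ := fun p => (1 - cl p.2) * (a + e + cl p.1 * w) +
    cl p.2 * (a + e + cl (2 * p.1) * w) with hY
  have ccl := cl_cont
  have cX : Continuous X := by rw [hX]; fun_prop
  have cY : Continuous Y := by rw [hY]; fun_prop
  have hXa : ∀ p, a ≤ X p := by
    intro p
    have i1 := mul_nonneg (mul_nonneg (sub_nonneg.2 (cl_le p.2)) (cl_nn p.1)) w0.le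
    have i2 := mul_nonneg (mul_nonneg (cl_nn p.2) (cl_nn (2 * p.1 - 1))) w0.le
    simp only [hX]; linarith
  have hYb : ∀ p, Y p ≤ b := by
    intro p
    have i1 := mul_nonneg (mul_nonneg (sub_nonneg.2 (cl_le p.2)) (sub_nonneg.2 (cl_le p.1))) w0.le
    have i2 := mul_nonneg (mul_nonneg (cl_nn p.2) (sub_nonneg.2 (cl_le (2 * p.1)))) w0.le
    simp only [hY]; linarith
  have hXY : ∀ p, X p + e ≤ Y p := by
    intro p
    have i1 := mul_nonneg (mul_nonneg (cl_nn p.2)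
      (sub_nonneg.2 (cl_mono (by linarith : 2 * p.1 - 1 ≤ 2 * p.1)))) w0.le
    simp only [hX, hY]; linarith
  have hXI : ∀ p, X p ∈ Icc a b := fun p => ⟨hXa p, by linarith [hXY p, hYb p]⟩
  have hYI : ∀ p, Y p ∈ Icc a b := fun p => ⟨by linarith [hXY p, hXa p], hYb p⟩
  have nzq : ∀ x ∈ Icc a b, ∀ y ∈ Icc a b, x < y →
      ¬ (mgc q (DD q x y) = 0 ∧ mgc q (CC q x y) = 0) := by
    rintro x hx y hy hxy ⟨h1, h2⟩
    exact K.nomix F nosq hM (by linarith) hx hy (J x y hxy (by linarith [hx.1, hy.2]))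
      ⟨(mgc_sg K.L').zero K.L' |>.1 h1, (mgc_sg K.L').zero K.L' |>.1 h2⟩
  have cD := K.L'.DD_cont
  have cC := K.L'.CC_cont
  have cM := (mgc_sg K.L').cont
  have cD' := K.L.DD_cont
  have cC' := K.L.CC_cont
  have cM' := (mgc_sg K.L).cont
  obtain ⟨Kk, hKk, eKk⟩ := H777R2.exists_log (X := ℝ × ℝ)
    (g := fun p => ((mgc q (DD q (X p) (Y p)) : ℝ) : ℂ) + ((mgc q (CC q (X p) (Y p)) : ℝ) : ℂ) * I)
    (by
      have h1 : Continuous fun p : ℝ × ℝ => mgc q (DD q (X p) (Y p)) :=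
        cM.comp (cD.comp (cX.prodMk cY))
      have h2 : Continuous fun p : ℝ × ℝ => mgc q (CC q (X p) (Y p)) :=
        cM.comp (cC.comp (cX.prodMk cY))
      fun_prop) (fun p hp => by
      have e1 := congrArg Complex.re hp
      have e2 := congrArg Complex.im hp
      simp at e1 e2
      exact nzq _ (hXI p) _ (hYI p) (by linarith [hXY p]) ⟨e1, e2⟩)
  have N1 : ∀ p, mgc q (DD q (X p) (Y p)) = Real.exp (Kk p).re * Real.cos (Kk p).im := by
    intro p
    have := congrArg Complex.re (eKk p)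
    rw [Complex.exp_re] at this
    simp at this
    exact this.symm
  have N2 : ∀ p, mgc q (CC q (X p) (Y p)) = Real.exp (Kk p).re * Real.sin (Kk p).im := by
    intro p
    have := congrArg Complex.im (eKk p)
    rw [Complex.exp_im] at this
    simp at this
    exact this.symm
  -- the two ends
  have X0 : ∀ l, X (0, l) = a := by
    intro l; simp only [hX]; rw [cl0 (le_refl (0:ℝ)), cl0 (by norm_num : 2 * (0:ℝ) - 1 ≤ 0)]; ring
  have Y0 : ∀ l, Y (0, l) = a + e := by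
    intro l; simp only [hY]; rw [cl0 (le_refl (0:ℝ)), cl0 (by norm_num : 2 * (0:ℝ) ≤ 0)]; ring
  have X1 : ∀ l, X (1, l) = a + w := by
    intro l; simp only [hX]; rw [cl1 (le_refl (1:ℝ)), cl1 (by norm_num : 1 ≤ 2 * (1:ℝ) - 1)]; ring
  have Y1 : ∀ l, Y (1, l) = b := by
    intro l; simp only [hY]; rw [cl1 (le_refl (1:ℝ)), cl1 (by norm_num : 1 ≤ 2 * (1:ℝ)), hw]; ring
  have k0 : Kk (0, 0) = Kk (0, 1) := H777R2.exp_const (k := fun l : ℝ => Kk (0, l))
    (hKk.comp (by fun_prop)) (fun l => by rw [eKk, X0, Y0]) 0 1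
  have k1 : Kk (1, 0) = Kk (1, 1) := H777R2.exp_const (k := fun l : ℝ => Kk (1, l))
    (hKk.comp (by fun_prop)) (fun l => by rw [eKk, X1, Y1]) 0 1
  -- the long way
  have hfl := floor_const (ψ := fun s : ℝ => (Kk (s, 1)).im - Real.pi / 2)
    ((continuous_im.comp (hKk.comp (by fun_prop))).sub continuous_const) (fun s => by
      rintro ⟨h1, h2⟩
      simp only [Real.sin_sub_pi_div_two, Real.cos_sub_pi_div_two] at h1 h2
      have n1 := N1 (s, 1)
      have n2 := N2 (s, 1)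
      have p1 := mul_pos (Real.exp_pos (Kk (s, 1)).re) (show 0 < Real.cos (Kk (s, 1)).im by linarith)
      have p2 := mul_pos (Real.exp_pos (Kk (s, 1)).re) h2
      rw [← n1] at p1
      rw [← n2] at p2
      rcases le_total s (1 / 2) with h | h
      · have eX : X (s, 1) = a := by
          simp only [hX]; rw [cl1 (le_refl (1:ℝ)), cl0 (by linarith : 2 * s - 1 ≤ 0)]; ring
        have := K.left0 F (hYI (s, 1))
        rw [DD_eq, K.eq _ (hXI _), K.eq _ (hYI _), eX, ha, zero_add, sub_zero] at p1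
        linarith
      · have eY : Y (s, 1) = b := by
          simp only [hY]; rw [cl1 (le_refl (1:ℝ)), cl1 (by linarith : 1 ≤ 2 * s), hw]; ring
        have := K.right0 F (hXI (s, 1))
        rw [CC_eq, K.eq _ (hXI _), K.eq _ (hYI _), eY, hb] at p2
        linarith) 0 1
  simp only [← k0, ← k1] at hfl
  -- signs on the thin path
  have hx : ∀ u, X (u, 0) = a + cl u * w := fun u => by
    simp only [hX]; rw [cl0 (le_refl (0:ℝ))]; ring
  have hy : ∀ u, Y (u, 0) = a + e + cl u * w := fun u => by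
    simp only [hY]; rw [cl0 (le_refl (0:ℝ))]; ring
  have hin : ∀ u ∈ Ioo (0:ℝ) 1, _ := fun u hu => hs (X (u, 0)) (Y (u, 0))
    (by rw [hx, clm hu.1.le hu.2.le]; linarith [mul_pos hu.1 w0]) (by linarith [hXY (u, 0)])
    (by rw [hy, clm hu.1.le hu.2.le]; linarith [mul_pos (sub_pos.2 hu.2) w0])
    (by rw [hx, hy]; linarith)
  have i1 : Continuous fun u : ℝ => mgc c (DD c (X (u, 0)) (Y (u, 0))) :=
    cM'.comp (cD'.comp ((cX.comp (by fun_prop)).prodMk (cY.comp (by fun_prop))))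
  have i2 : Continuous fun u : ℝ => mgc q (DD q (X (u, 0)) (Y (u, 0))) :=
    cM.comp (cD.comp ((cX.comp (by fun_prop)).prodMk (cY.comp (by fun_prop))))
  have i3 : Continuous fun u : ℝ => mgc c (CC c (X (u, 0)) (Y (u, 0))) :=
    cM'.comp (cC'.comp ((cX.comp (by fun_prop)).prodMk (cY.comp (by fun_prop))))
  have i4 : Continuous fun u : ℝ => mgc q (CC q (X (u, 0)) (Y (u, 0))) :=
    cM.comp (cC.comp ((cX.comp (by fun_prop)).prodMk (cY.comp (by fun_prop))))
  have g1 := cont_pos (h := fun u => τ * (mgc c (DD c (X (u, 0)) (Y (u, 0))) *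
      mgc q (DD q (X (u, 0)) (Y (u, 0))))) (by fun_prop) (fun u hu => (hin u hu).1)
  have g2 := cont_pos (h := fun u => τ * (mgc c (CC c (X (u, 0)) (Y (u, 0))) *
      mgc q (CC q (X (u, 0)) (Y (u, 0))))) (by fun_prop) (fun u hu => (hin u hu).2.1)
  -- the first end
  have aeI : a + e ∈ Icc a b := ⟨by linarith, by linarith⟩
  have bwI : a + w ∈ Icc a b := ⟨by linarith, by linarith⟩
  have aI : a ∈ Icc a b := ⟨le_rfl, hab.le⟩
  have bI : b ∈ Icc a b := ⟨hab.le, le_rfl⟩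
  have W0 := wa a (a + e) (by linarith) le_rfl (by linarith) (by linarith) (by linarith)
  have W1 := wb (a + w) b (by linarith) (by linarith) le_rfl (by linarith) (by linarith)
  have G1 := g1 0 ⟨le_rfl, zero_le_one⟩
  have G2 := g2 0 ⟨le_rfl, zero_le_one⟩
  have G3 := g1 1 ⟨zero_le_one, le_rfl⟩
  have G4 := g2 1 ⟨zero_le_one, le_rfl⟩
  simp only [X0, Y0] at G1 G2
  simp only [X1, Y1] at G3 G4
  have zc : ∀ z, mgc c z ≠ 0 → z ∉ range c := fun z h hz => h ((mgc_sg L).zero L |>.2 hz)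
  have zq : ∀ z, mgc q z = 0 → z ∈ range q := fun z h => (mgc_sg K.L').zero K.L' |>.1 h
  have qc : ∀ z, z ∉ range c → z ∈ range q → ‖z‖ < 3 * M + 2 → z.im = 0 ∧ (z.re ≤ 0 ∨ 1 ≤ z.re) := by
    intro z h1 h2 h3
    rcases K.mem h2 with ⟨t, -, e⟩ | ⟨h, h'⟩ | ⟨h, h'⟩ | ⟨-, h⟩
    · exact absurd ⟨t, e⟩ h1
    · exact ⟨h, Or.inl h'⟩
    · exact ⟨h, Or.inr h'⟩
    · linarith
  have L0 : mgc q (DD q a (a + e)) ≤ 0 := by
    have := K.left0 F aeI
    rwa [DD_eq, K.eq _ aI, K.eq _ aeI, ha, zero_add, sub_zero]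
  have L1 : mgc q (CC q (a + w) b) ≤ 0 := by
    have := K.right0 F bwI
    rwa [CC_eq, K.eq _ bI, K.eq _ bwI, hb]
  have S0 := sgn_end hτ G1 G2 W0 (nzq _ aI _ aeI (by linarith)) L0 (fun h0 => by
    have h1 := qc _ (by
      have := zc _ (left_ne_zero_of_mul W0.ne')
      rwa [show DD c a (a + e) = I * c (a + e) by rw [DD_eq, ha]; ring] at this)
      (by
        have := zq _ h0
        rwa [show DD q a (a + e) = I * c (a + e) by
          rw [DD_eq, K.eq _ aI, K.eq _ aeI, ha]; ring] at this)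
      (by rw [norm_mul, norm_I, one_mul]; linarith [hM _ aeI])
    have h2 := c1 (a + e) (by rw [add_sub_cancel_left, abs_of_pos he]; exact e6)
    rw [ha, sub_zero] at h2
    have h3 := F.re0 _ aeI
    obtain ⟨h4, h5⟩ := h1
    simp only [mul_re, mul_im, I_re, I_im, zero_mul, one_mul, zero_sub, zero_add] at h4 h5
    have h6 := (neg_le_abs _).trans_lt ((abs_im_le_norm (c (a + e))).trans_lt h2)
    have h7 : 0 ≤ (c (a + e)).im := by
      rcases h5 with h5 | h5 <;> linarith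
    have h8 : 0 < (c (a + e)).im := by
      rcases h7.lt_or_eq with h | h
      · exact h
      · exfalso
        refine J a (a + e) (by linarith) (by linarith) ?_
        rw [ha]
        exact Complex.ext (by simp [h4]) (by simp [← h])
    have h9 := (K.left F h8 aI).2
    have eB : c (a + e) = I * ((c (a + e)).im : ℂ) := Complex.ext (by simp [h4]) (by simp)
    rw [ha, mul_zero, zero_add] at h9
    rwa [CC_eq, K.eq _ aI, K.eq _ aeI, ha, sub_zero, eB, show I * ((c (a + e)).im : ℂ) +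
      I * (I * ((c (a + e)).im : ℂ)) = (c (a + e)).im * (-1 + I) by
        linear_combination ((c (a + e)).im : ℂ) * I_mul_I])
  have S1 := sgn_end hτ G4 G3 (by rw [mul_comm]; exact W1) (fun h =>
    nzq _ bwI _ bI (by linarith) ⟨h.2, h.1⟩) L1 (fun h0 => by
    have h1 := qc _ (by
      have := zc _ (right_ne_zero_of_mul W1.ne')
      rwa [show CC c (a + w) b = 1 + I * (1 - c (a + w)) by rw [CC_eq, hb]] at this)
      (by
        have := zq _ h0
        rwa [show CC q (a + w) b = 1 + I * (1 - c (a + w)) by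
          rw [CC_eq, K.eq _ bI, K.eq _ bwI, hb]] at this)
      (by
        refine (norm_add_le _ _).trans_lt ?_
        rw [norm_mul, norm_I, one_mul, norm_one]
        have := norm_sub_le 1 (c (a + w))
        rw [norm_one] at this
        have h5 := hM _ bwI
        have h6 := hM _ bI
        rw [hb, norm_one] at h6
        linarith)
    have h2 := c2 (a + w) (by rw [hw, show a + (b - a - e) - b = -e by ring, abs_neg, abs_of_pos he]; exact e7)
    rw [hb] at h2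
    have h3 := F.re1 _ bwI
    obtain ⟨h4, h5⟩ := h1
    simp only [mul_re, mul_im, I_re, I_im, zero_mul, one_mul, zero_sub, zero_add, add_re, add_im,
      sub_re, sub_im, one_re, one_im, neg_neg] at h4 h5
    have h6 := (neg_le_abs _).trans_lt ((abs_im_le_norm (c (a + w) - 1)).trans_lt h2)
    simp only [sub_im, one_im, sub_zero] at h6
    have h7 : 0 ≤ (c (a + w)).im := by
      rcases h5 with h5 | h5 <;> linarith
    have hre : (c (a + w)).re = 1 := by linarith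
    have h8 : 0 < (c (a + w)).im := by
      rcases h7.lt_or_eq with h | h
      · exact h
      · exfalso
        refine J (a + w) b (by linarith) (by linarith) ?_
        rw [hb]
        exact Complex.ext (by simp [hre]) (by simp [← h])
    have h9 := (K.right F h8 bI).2
    have eA : c (a + w) = 1 + I * ((c (a + w)).im : ℂ) := Complex.ext (by simp [hre]) (by simp)
    rw [hb] at h9
    rwa [DD_eq, K.eq _ bI, K.eq _ bwI, hb, eA, show 1 + I * ((c (a + w)).im : ℂ) +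
      I * (1 - (1 + I * ((c (a + w)).im : ℂ))) = 1 + (c (a + w)).im +
        I * (1 + (c (a + w)).im - 1) by
        linear_combination -((c (a + w)).im : ℂ) * I_mul_I])
  -- positivity on the thin path
  have hpos : ∀ u ∈ Icc (0:ℝ) 1, 0 < τ * (mgc c (DD c (X (u, 0)) (Y (u, 0))) *
      mgc q (DD q (X (u, 0)) (Y (u, 0))) + mgc c (CC c (X (u, 0)) (Y (u, 0))) *
      mgc q (CC q (X (u, 0)) (Y (u, 0)))) := by
    intro u hu
    rcases hu.1.lt_or_eq with h | h
    · rcases hu.2.lt_or_eq with h' | h'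
      · obtain ⟨j1, j2, j3, j4⟩ := hin u ⟨h, h'⟩
        have hnz := nzq _ (hXI (u, 0)) _ (hYI (u, 0)) (by linarith [hXY (u, 0)])
        rw [mul_add]
        rcases (add_nonneg j1 j2).lt_or_eq with h0 | h0
        · exact h0
        · exfalso
          have k1 : τ * (mgc c (DD c (X (u, 0)) (Y (u, 0))) *
            mgc q (DD q (X (u, 0)) (Y (u, 0)))) = 0 := by linarith
          have k2 : τ * (mgc c (CC c (X (u, 0)) (Y (u, 0))) *
            mgc q (CC q (X (u, 0)) (Y (u, 0)))) = 0 := by linarith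
          have t0 : τ ≠ 0 := by rcases hτ with rfl | rfl <;> norm_num
          simp only [mul_eq_zero, t0, false_or, j3, j4, or_self] at k1 k2
          exact hnz ⟨k1, k2⟩
      · rw [h', X1, Y1, add_comm]
        exact S1.2
    · rw [← h, X0, Y0]
      exact S0.2
  obtain ⟨n, hn⟩ : ∃ n : ℤ, (τ = 1 ∧ n = 0) ∨ (τ = -1 ∧ n = 1) := by
    rcases hτ with h | h
    · exact ⟨0, Or.inl ⟨h, rfl⟩⟩
    · exact ⟨1, Or.inr ⟨h, rfl⟩⟩
  have hn' : n = 0 ∨ n = 1 := by
    rcases hn with ⟨-, h⟩ | ⟨-, h⟩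
    · exact Or.inl h
    · exact Or.inr h
  have cθ : Continuous fun u : ℝ => θ (X (u, 0)) (Y (u, 0)) :=
    A.path (p := fun u => (X (u, 0), Y (u, 0))) (by fun_prop) (fun u =>
      ⟨by linarith [hXY (u, 0)], by simp only; linarith [hXa (u, 0), hYb (u, 0)]⟩)
  have cφ : Continuous fun u : ℝ => (Kk (u, 0)).im + n * Real.pi :=
    (continuous_im.comp (hKk.comp (by fun_prop))).add continuous_const
  obtain ⟨j, hj⟩ := cmp_ang (isPreconnected_Icc (a := (0:ℝ)) (b := 1)) cθ.continuousOn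
    cφ.continuousOn (fun u hu => by
      obtain ⟨ρ, hρ, r1, r2⟩ := A.ex (X (u, 0)) (Y (u, 0)) (by linarith [hXY (u, 0)])
        (by linarith [hXa (u, 0), hYb (u, 0)])
      exact cos_cmp hn hρ (Real.exp_pos _) r1 r2 (N1 (u, 0)) (N2 (u, 0)) (hpos u hu))
  -- conclusion
  have pc : ∀ {r x : ℝ}, 0 < r → r * x ≤ 0 → x ≤ 0 := fun h1 h2 =>
    nonpos_of_mul_nonpos_right h2 h1
  obtain ⟨m, hm⟩ : ∃ m, m = ⌊((Kk (0, 0)).im - Real.pi / 2) / (2 * Real.pi)⌋ := ⟨_, rfl⟩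
  have E0 : ⌊θ a (a + e) / Real.pi⌋ = 1 + (2 * (j + m) + n) := by
    have h1 := hj 0 ⟨le_rfl, zero_le_one⟩
    have n1 := N1 (0, 0)
    have n2 := N2 (0, 0)
    simp only [X0, Y0] at h1 n1 n2
    rw [n1] at L0
    have h2 := S0.1
    rw [n2] at h2
    obtain ⟨ρ, hρ, r1, r2⟩ := A.ex a (a + e) (by linarith) (by linarith)
    refine cmp_end hn' h1 hm.symm (pc (Real.exp_pos _) L0) (pc (Real.exp_pos _) h2) ?_
    rw [r1, r2, show ρ * Real.cos (θ a (a + e)) * (ρ * Real.sin (θ a (a + e))) =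
      (ρ * ρ) * (Real.cos (θ a (a + e)) * Real.sin (θ a (a + e))) by ring] at W0
    exact (mul_pos_iff_of_pos_left (mul_pos hρ hρ)).1 W0
  have E1 : ⌊θ (a + w) b / Real.pi⌋ = 1 + (2 * (j + m) + n) := by
    have h1 := hj 1 ⟨zero_le_one, le_rfl⟩
    have n1 := N1 (1, 0)
    have n2 := N2 (1, 0)
    simp only [X1, Y1] at h1 n1 n2
    rw [n2] at L1
    have h2 := S1.1
    rw [n1] at h2
    obtain ⟨ρ, hρ, r1, r2⟩ := A.ex (a + w) b (by linarith) (by linarith)
    refine cmp_end hn' h1 (hfl.symm.trans hm.symm) (pc (Real.exp_pos _) h2) (pc (Real.exp_pos _) L1) ?_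
    rw [r1, r2, show ρ * Real.cos (θ (a + w) b) * (ρ * Real.sin (θ (a + w) b)) =
      (ρ * ρ) * (Real.cos (θ (a + w) b) * Real.sin (θ (a + w) b)) by ring] at W1
    exact (mul_pos_iff_of_pos_left (mul_pos hρ hρ)).1 W1
  rw [← ka a (a + e) (by linarith) le_rfl (by linarith) (by linarith) (by linarith),
    ← kb (a + w) b (by linarith) (by linarith) le_rfl (by linarith) (by linarith), E0, E1]

end Pool.Agent.T2H16
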