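import Pool.Agent.T2H16.SA.Wide

/-! Confined arcs: closing an arc by two horizontal segments and a far arc. -/

set_option autoImplicit false
open Complex Set Topology Metric
open scoped ComplexConjugate

namespace Pool.Agent.T2H16

open Pool.Agent.H763R2 Pool.Agent.H763R2.An Pool.Agent.W675.Peg Pool.Agent.TH569.Peg
open Pool.Agent.Y535.PEG
open Pool.Agent.H763R2.Dm (NoSq floor_const b_true b_false)

variable {c q : ℝ → ℂ} {a b R : ℝ}

/-- a curve that consists of the arc of `c` over `[a, b]` from `0` to `1`, of two horizontal segments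
and of a far arc below -/
structure Cl (c q : ℝ → ℂ) (a b R : ℝ) : Prop where
  L : Loop c
  L' : Loop q
  ab : a < b
  ba : b < a + 1
  ca : c a = 0
  cb : c b = 1
  eq : ∀ t ∈ Icc a b, q t = c t
  rest : ∀ t ∈ Icc b (a + 1), ((q t).im = 0 ∧ (q t).re ≤ 0) ∨ ((q t).im = 0 ∧ 1 ≤ (q t).re) ∨
    ((q t).im ≤ 0 ∧ R ≤ ‖q t‖)

/-- clamp -/
noncomputable def cl (x : ℝ) : ℝ := max 0 (min 1 x)

theorem cl_cont : Continuous cl := by unfold cl; fun_prop
theorem cl0 {x : ℝ} (h : x ≤ 0) : cl x = 0 := by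
  unfold cl; exact max_eq_left ((min_le_right _ _).trans h)
theorem cl1 {x : ℝ} (h : 1 ≤ x) : cl x = 1 := by
  unfold cl; rw [min_eq_left h]; exact max_eq_right zero_le_one
theorem clm {x : ℝ} (h : 0 ≤ x) (h' : x ≤ 1) : cl x = x := by
  unfold cl; rw [min_eq_right h', max_eq_right h]

/-- the closing path -/
noncomputable def zz (r s : ℝ) : ℂ := 1 + (r * cl s : ℝ) + (-2 * r * I - 1 - r) * (cl (s - 1) : ℝ) +
  (-r + 2 * r * I) * (cl (s - 2) : ℝ) + (r * cl (s - 3) : ℝ)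

theorem zz_cont (r : ℝ) : Continuous (zz r) := by
  have := cl_cont
  unfold zz; fun_prop

theorem zz_spec {r R s : ℝ} (hr : r = 2 * |R| + 2) (h0 : 0 ≤ s) (h4 : s ≤ 4) :
    ((zz r s).im = 0 ∧ (zz r s).re ≤ 0) ∨ ((zz r s).im = 0 ∧ 1 ≤ (zz r s).re) ∨
    ((zz r s).im ≤ 0 ∧ R ≤ ‖zz r s‖) := by
  have hR := abs_nonneg R
  have hR' := le_abs_self R
  have hr0 : 0 < r := by linarith
  have eim : (zz r s).im = -2 * r * cl (s - 1) + 2 * r * cl (s - 2) := by
    unfold zz; simp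
  have ere : (zz r s).re = 1 + r * cl s + (-1 - r) * cl (s - 1) - r * cl (s - 2) +
      r * cl (s - 3) := by
    unfold zz; simp; ring
  rcases le_total s 1 with h1 | h1
  · right; left
    rw [eim, ere, cl0 (by linarith : s - 1 ≤ 0), cl0 (by linarith : s - 2 ≤ 0),
      cl0 (by linarith : s - 3 ≤ 0), clm h0 h1]
    constructor
    · ring
    · nlinarith [mul_nonneg hr0.le h0]
  rcases le_total s 2 with h2 | h2
  · right; right
    rw [cl0 (by linarith : s - 2 ≤ 0), clm (x := s - 1) (by linarith) (by linarith)] at eim ere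
    rw [cl0 (by linarith : s - 3 ≤ 0), cl1 h1] at ere
    constructor
    · rw [eim]; nlinarith [mul_nonneg hr0.le (by linarith : 0 ≤ s - 1)]
    · rcases le_total (s - 1) (1 / 2) with h | h
      · refine le_trans ?_ (abs_re_le_norm _)
        refine le_trans ?_ (le_abs_self _)
        rw [ere]; nlinarith
      · refine le_trans ?_ (abs_im_le_norm _)
        refine le_trans ?_ (neg_le_abs _)
        rw [eim]; nlinarith
  rcases le_total s 3 with h3 | h3
  · right; right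
    rw [clm (x := s - 2) (by linarith) (by linarith), cl1 (by linarith : 1 ≤ s - 1)] at eim ere
    rw [cl0 (by linarith : s - 3 ≤ 0), cl1 h1] at ere
    constructor
    · rw [eim]; nlinarith [mul_nonneg hr0.le (by linarith : 0 ≤ 3 - s)]
    · rcases le_total (s - 2) (1 / 2) with h | h
      · refine le_trans ?_ (abs_im_le_norm _)
        refine le_trans ?_ (neg_le_abs _)
        rw [eim]; nlinarith
      · refine le_trans ?_ (abs_re_le_norm _)
        refine le_trans ?_ (neg_le_abs _)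
        rw [ere]; nlinarith
  · left
    rw [clm (x := s - 3) (by linarith) (by linarith), cl1 (by linarith : 1 ≤ s - 1),
      cl1 (by linarith : 1 ≤ s - 2), cl1 h1] at ere
    rw [cl1 (by linarith : 1 ≤ s - 1), cl1 (by linarith : 1 ≤ s - 2)] at eim
    constructor
    · rw [eim]; ring
    · rw [ere]; nlinarith [mul_nonneg hr0.le (by linarith : 0 ≤ 4 - s)]

theorem zz0 (r : ℝ) : zz r 0 = 1 := by
  unfold zz
  rw [cl0 le_rfl, cl0 (by norm_num), cl0 (by norm_num), cl0 (by norm_num)]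
  simp

theorem zz4 (r : ℝ) : zz r 4 = 0 := by
  unfold zz
  rw [cl1 (by norm_num), cl1 (by norm_num), cl1 (by norm_num), cl1 (by norm_num)]
  push_cast; ring

theorem exCl (L : Loop c) (hab : a < b) (hba : b < a + 1) (ha : c a = 0) (hb : c b = 1) (R : ℝ) :
    ∃ q, Cl c q a b R := by
  have hd : 0 < a + 1 - b := by linarith
  have hz := zz_cont (2 * |R| + 2)
  have hc := L.cont
  set f : ℝ → ℂ := fun t => c (min t b) + (zz (2 * |R| + 2) (4 * max 0 ((t - b) / (a + 1 - b))) - 1)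
    with hf
  have cf : Continuous f := by rw [hf]; fun_prop
  have f1 : ∀ t, t ≤ b → f t = c t := by
    intro t ht
    simp only [hf]
    rw [min_eq_left ht, max_eq_left (div_nonpos_of_nonpos_of_nonneg (by linarith) hd.le), mul_zero,
      zz0, sub_self, add_zero]
  have f2 : ∀ t, b ≤ t → f t = zz (2 * |R| + 2) (4 * ((t - b) / (a + 1 - b))) := by
    intro t ht
    simp only [hf]
    rw [min_eq_right ht, max_eq_right (div_nonneg (by linarith) hd.le), hb]
    ring
  obtain ⟨q, Lq, hq⟩ := exPerA (f := f) (a := a) cf.continuousOn (by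
    rw [f1 a hab.le, f2 (a + 1) hba.le, div_self hd.ne', mul_one, zz4, ha])
  refine ⟨q, L, Lq, hab, hba, ha, hb, fun t ht => ?_, fun t ht => ?_⟩
  · rw [hq t ⟨ht.1, by linarith [ht.2]⟩, f1 t ht.2]
  · rw [hq t ⟨by linarith [ht.1], ht.2⟩, f2 t ht.1]
    refine zz_spec rfl (mul_nonneg (by norm_num) (div_nonneg (by linarith [ht.1]) hd.le)) ?_
    have : (t - b) / (a + 1 - b) ≤ 1 := by
      rw [div_le_one hd]; linarith [ht.2]
    linarith

theorem Cl.mem (K : Cl c q a b R) {z : ℂ} (h : z ∈ range q) : (∃ t ∈ Icc a b, c t = z) ∨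
    (z.im = 0 ∧ z.re ≤ 0) ∨ (z.im = 0 ∧ 1 ≤ z.re) ∨ (z.im ≤ 0 ∧ R ≤ ‖z‖) := by
  obtain ⟨t, rfl⟩ := h
  have hp : Function.Periodic q 1 := K.L'.per
  obtain ⟨s, hs, e⟩ := hp.exists_mem_Ico one_pos t a
  rw [e]
  rcases le_total s b with h | h
  · exact Or.inl ⟨s, ⟨hs.1, h⟩, (K.eq s ⟨hs.1, h⟩).symm⟩
  · exact Or.inr (K.rest s ⟨h, hs.2.le⟩)

theorem Cl.above (K : Cl c q a b R) {z : ℂ} (h0 : 0 < z.im)
    (h : ∀ t ∈ Icc a b, (c t).re = z.re → (c t).im < z.im) : z ∉ range q ∧ mgc q z ≤ 0 := by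
  have key : ∀ s : ℝ, 0 ≤ s → z + s * I ∉ range q := by
    intro s hs hmem
    have e1 : (z + s * I).im = z.im + s := by simp
    have e2 : (z + s * I).re = z.re := by simp
    rcases K.mem hmem with ⟨t, ht, e⟩ | ⟨h1, -⟩ | ⟨h1, -⟩ | ⟨h1, -⟩
    · have := h t ht (by rw [e, e2])
      rw [e, e1] at this
      linarith
    · rw [e1] at h1; linarith
    · rw [e1] at h1; linarith
    · rw [e1] at h1; linarith
  refine ⟨by simpa using key 0 le_rfl, mgc_le_of_dir K.L' (v := I) I_ne_zero fun s hs t ht => ?_⟩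
  exact absurd ⟨t, ht⟩ (key s hs)

/-- confined arcs, from `0` to `1` -/
structure Cf (c : ℝ → ℂ) (a b : ℝ) : Prop where
  re0 : ∀ t ∈ Icc a b, 0 ≤ (c t).re
  re1 : ∀ t ∈ Icc a b, (c t).re ≤ 1
  sl : ∀ t ∈ Icc a b, ∀ u ∈ Icc a b, (c u).re < -(c t).im →
    (c u).re + (c u).im < (c t).re - (c t).im
  sr : ∀ t ∈ Icc a b, ∀ u ∈ Icc a b, 1 + (c t).im < (c u).re →
    (c u).im - (c u).re < -(c t).re - (c t).im

theorem Cl.left (K : Cl c q a b R) (F : Cf c a b) {s t : ℝ} (hs : 0 < s) (ht : t ∈ Icc a b) :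
    I * c t + s * (-1 + I) ∉ range q ∧ mgc q (I * c t + s * (-1 + I)) ≤ 0 := by
  have e1 : (I * c t + s * (-1 + I)).re = -(c t).im - s := by simp; ring
  have e2 : (I * c t + s * (-1 + I)).im = (c t).re + s := by simp
  refine K.above (by rw [e2]; linarith [F.re0 t ht]) fun u hu h => ?_
  rw [e1] at h
  have := F.sl t ht u hu (by linarith)
  rw [e2]; linarith

theorem Cl.right (K : Cl c q a b R) (F : Cf c a b) {s t : ℝ} (hs : 0 < s) (ht : t ∈ Icc a b) :
    1 + s + I * (1 + s - c t) ∉ range q ∧ mgc q (1 + s + I * (1 + s - c t)) ≤ 0 := by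
  have e1 : (1 + s + I * (1 + s - c t)).re = 1 + s + (c t).im := by simp
  have e2 : (1 + s + I * (1 + s - c t)).im = 1 + s - (c t).re := by simp
  refine K.above (by rw [e2]; linarith [F.re1 t ht]) fun u hu h => ?_
  rw [e1] at h
  have := F.sr t ht u hu (by linarith)
  rw [e2]; linarith

theorem lim_le {M : ℂ → ℝ} (hM : Continuous M) {z v : ℂ} (h : ∀ s : ℝ, 0 < s → M (z + s * v) ≤ 0) :
    M z ≤ 0 := by
  have hc : Continuous fun s : ℝ => M (z + s * v) := by fun_prop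
  have h1 : Filter.Tendsto (fun s : ℝ => M (z + s * v)) (𝓝[>] 0) (𝓝 (M (z + (0:ℝ) * v))) :=
    hc.continuousAt.tendsto.mono_left nhdsWithin_le_nhds
  have h2 := le_of_tendsto h1 (Filter.eventually_of_mem self_mem_nhdsWithin fun s hs => h s hs)
  simpa using h2

theorem Cl.left0 (K : Cl c q a b R) (F : Cf c a b) {t : ℝ} (ht : t ∈ Icc a b) :
    mgc q (I * c t) ≤ 0 :=
  lim_le (mgc_sg K.L').cont fun _ hs => (K.left F hs ht).2

theorem Cl.right0 (K : Cl c q a b R) (F : Cf c a b) {t : ℝ} (ht : t ∈ Icc a b) :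
    mgc q (1 + I * (1 - c t)) ≤ 0 :=
  lim_le (v := 1 + I) (mgc_sg K.L').cont fun s hs => by
    have := (K.right F hs ht).2
    rwa [show (1 : ℂ) + s + I * (1 + s - c t) = 1 + I * (1 - c t) + s * (1 + I) by ring] at this

/-- no square has two vertices on the arc and the two other ones on the closed curve -/
theorem Cl.nomix (K : Cl c q a b R) (F : Cf c a b) (nosq : NoSq (range c)) {M : ℝ}
    (hM : ∀ t ∈ Icc a b, ‖c t‖ ≤ M) (hR : 3 * M < R) {x y : ℝ} (hx : x ∈ Icc a b)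
    (hy : y ∈ Icc a b) (hne : c x ≠ c y) :
    ¬ (DD q x y ∈ range q ∧ CC q x y ∈ range q) := by
  rintro ⟨hD, hC⟩
  rw [DD_eq, K.eq x hx, K.eq y hy] at hD
  rw [CC_eq, K.eq x hx, K.eq y hy] at hC
  obtain ⟨A, hA⟩ : ∃ A, A = c x := ⟨_, rfl⟩
  obtain ⟨B, hB⟩ : ∃ B, B = c y := ⟨_, rfl⟩
  obtain ⟨D, eD⟩ : ∃ D, D = A + I * (B - A) := ⟨_, rfl⟩
  obtain ⟨C, eC⟩ : ∃ C, C = B + I * (B - A) := ⟨_, rfl⟩
  rw [← hA, ← hB, ← eD] at hD
  rw [← hA, ← hB, ← eC] at hC
  have nA := hM x hx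
  have nB := hM y hy
  rw [← hA] at nA
  rw [← hB] at nB
  have nBA : ‖I * (B - A)‖ ≤ 2 * M := by
    rw [norm_mul, norm_I, one_mul]
    exact (norm_sub_le _ _).trans (by linarith)
  have nD : ¬ R ≤ ‖D‖ := by
    rw [not_le, eD]
    exact (norm_add_le _ _).trans_lt (by linarith)
  have nC : ¬ R ≤ ‖C‖ := by
    rw [not_le, eC]
    exact (norm_add_le _ _).trans_lt (by linarith)
  have h2 : (I * I : ℂ) = -1 := I_mul_I
  -- D on the left
  have dl : ¬ (D.im = 0 ∧ D.re < 0) := by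
    rintro ⟨h3, h4⟩
    have e3 : D = ((D.re : ℝ) : ℂ) := Complex.ext (by simp) (by simp [h3])
    have := (K.left F (s := -D.re) (by linarith) hx).1
    apply this
    have e4 : I * c x + ((-D.re : ℝ) : ℂ) * (-1 + I) = C := by
      rw [← hA, ofReal_neg, ← e3, eC, eD]
      linear_combination (A - B) * h2
    rw [e4]; exact hC
  have cr : ¬ (C.im = 0 ∧ 1 < C.re) := by
    rintro ⟨h3, h4⟩
    have e3 : C = ((C.re : ℝ) : ℂ) := Complex.ext (by simp) (by simp [h3])
    have := (K.right F (s := C.re - 1) (by linarith) hy).1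
    apply this
    have e4 : 1 + ((C.re - 1 : ℝ) : ℂ) + I * (1 + ((C.re - 1 : ℝ) : ℂ) - c y) = D := by
      rw [← hB, ofReal_sub, ← e3, ofReal_one, eC, eD]
      linear_combination (B - A) * h2
    rw [e4]; exact hD
  have arcRe : ∀ z, (∃ t ∈ Icc a b, c t = z) → 0 ≤ z.re ∧ z.re ≤ 1 := by
    rintro z ⟨t, ht, rfl⟩
    exact ⟨F.re0 t ht, F.re1 t ht⟩
  have aA := arcRe A ⟨x, hx, hA.symm⟩
  have aB := arcRe B ⟨y, hy, hB.symm⟩
  -- points of the arc at the ends
  have z0 : ∃ t ∈ Icc a b, c t = (0:ℂ) := ⟨a, ⟨le_rfl, K.ab.le⟩, K.ca⟩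
  have z1 : ∃ t ∈ Icc a b, c t = (1:ℂ) := ⟨b, ⟨K.ab.le, le_rfl⟩, K.cb⟩
  have cls : ∀ {z : ℂ}, z ∈ range q → ¬ R ≤ ‖z‖ → (∃ t ∈ Icc a b, c t = z) ∨
      (z.im = 0 ∧ z.re < 0) ∨ (z.im = 0 ∧ 1 < z.re) := by
    intro z hz hn
    rcases K.mem hz with h | ⟨h3, h4⟩ | ⟨h3, h4⟩ | ⟨-, h4⟩
    · exact Or.inl h
    · rcases h4.lt_or_eq with h5 | h5
      · exact Or.inr (Or.inl ⟨h3, h5⟩)
      · left
        have : z = 0 := Complex.ext h5 h3
        rw [this]; exact z0
    · rcases h4.lt_or_eq with h5 | h5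
      · exact Or.inr (Or.inr ⟨h3, h5⟩)
      · left
        have : z = 1 := Complex.ext h5.symm h3
        rw [this]; exact z1
    · exact absurd h4 hn
  rcases cls hD nD with ⟨t, ht, et⟩ | h | ⟨h3, h4⟩
  · rcases cls hC nC with ⟨u, hu, eu⟩ | ⟨h5, h6⟩ | h
    · -- a square on the arc
      refine nosq ⟨A, B - A, ?_, ?_, ?_, ?_, ?_⟩
      · rw [hA, hB]; exact sub_ne_zero.2 hne.symm
      · exact ⟨x, hA.symm⟩
      · exact ⟨y, by rw [← hB]; ring⟩
      · exact ⟨u, by rw [eu, eC]; ring⟩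
      · exact ⟨t, by rw [et, eD]⟩
    · -- C on the left
      have e3 : C = ((C.re : ℝ) : ℂ) := Complex.ext (by simp) (by simp [h5])
      have := (K.left F (s := -C.re) (by linarith) ht).1
      apply this
      have e4 : I * c t + ((-C.re : ℝ) : ℂ) * (-1 + I) = B := by
        rw [et, ofReal_neg, ← e3, eC, eD]
        ring
      rw [e4, hB, ← K.eq y hy]; exact mem_range_self _
    · exact cr h
  · exact dl h
  · -- D on the right
    have e3 : D = ((D.re : ℝ) : ℂ) := Complex.ext (by simp) (by simp [h3])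
    have real : C.im = 0 → False := by
      intro h5
      have e5 : (C - D).im = (B - A).im := by rw [eC, eD]; simp
      have e6 : (B - A).im = 0 := by rw [← e5, sub_im, h5, h3, sub_zero]
      have e7 : D.re = A.re - (B - A).im := by rw [eD]; simp; ring
      rw [e6] at e7
      linarith [aA.2]
    rcases cls hC nC with ⟨u, hu, eu⟩ | ⟨h5, -⟩ | ⟨h5, -⟩
    · have := (K.right F (s := D.re - 1) (by linarith) hu).1
      apply this
      have e4 : 1 + ((D.re - 1 : ℝ) : ℂ) + I * (1 + ((D.re - 1 : ℝ) : ℂ) - c u) = A := by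
        rw [eu, ofReal_sub, ← e3, ofReal_one, eC, eD]
        ring
      rw [e4, hA, ← K.eq x hx]; exact mem_range_self _
    · exact real h5
    · exact real h5

end Pool.Agent.T2H16
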