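import Pool.Agent.T2H16.SA.Nrm

/-! Curves made of locally monotone arcs and of confined arcs. -/

set_option autoImplicit false
open Complex Set Topology Metric
open scoped ComplexConjugate

namespace Pool.Agent.T2H16

open Pool.Agent.H763R2 Pool.Agent.H763R2.An Pool.Agent.W675.Peg Pool.Agent.TH569.Peg
open Pool.Agent.Y535.PEG
open Pool.Agent.H763R2.Dm (NoSq floor_const b_true b_false)

variable {c : ℝ → ℂ} {a b R : ℝ} {θ : ℝ → ℝ → ℝ} {g : ℤ}

theorem len_lt {n : ℕ} {t : ℕ → ℝ} (hn : 2 ≤ n) (ht : ∀ j < n, t j < t (j + 1))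
    (ht1 : t n = t 0 + 1) {j : ℕ} (hj : j < n) : t (j + 1) < t j + 1 := by
  have up : ∀ i k, i + k ≤ n → t i ≤ t (i + k) ∧ (0 < k → t i < t (i + k)) := by
    intro i k
    induction k with
    | zero => intro _; exact ⟨le_rfl, fun h => absurd h (lt_irrefl _)⟩
    | succ k ih =>
      intro h
      have h1 := (ih (by omega)).1
      have h2 := ht (i + k) (by omega)
      rw [← add_assoc]
      exact ⟨by linarith, fun _ => by linarith⟩
  have h0 := up 0 j (by omega)
  have h1 := up (j + 1) (n - (j + 1)) (by omega)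
  rw [Nat.add_sub_cancel' (by omega : j + 1 ≤ n), ht1] at h1
  rw [zero_add] at h0
  rcases Nat.eq_zero_or_pos j with hz | hz
  · subst hz
    have := h1.2 (by omega)
    linarith
  · have := h0.2 hz
    linarith [h1.1]

theorem main_false (L : Loop c) (J : Inj c) (nosq : NoSq (range c)) {n : ℕ} {t : ℕ → ℝ}
    (hn : 2 ≤ n) (ht : ∀ j < n, t j < t (j + 1)) (ht1 : t n = t 0 + 1)
    (H : ∀ j < n, (Cone c (t j) ∧ Cone c (t (j + 1)) ∧ ∀ s ∈ Icc (t j) (t (j + 1)), Mon c s) ∨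
      (Wide c (t j) ∧ Wide c (t (j + 1)) ∧
        Cf (tr (c (t (j + 1)) - c (t j))⁻¹ (c (t j)) c) (t j) (t (j + 1)))) : False := by
  obtain ⟨θ, g, A, ho⟩ := exists_odd L J nosq
  obtain ⟨k0, hk0⟩ : ∃ k0, WL θ (t 0) k0 := by
    rcases H 0 (by omega) with ⟨h, -, -⟩ | ⟨h, -, -⟩
    · obtain ⟨k, hk⟩ := exKL L J A h
      exact ⟨k, KL.wl hk⟩
    · exact exWL L J A h
  have key : ∀ i ≤ n, ∃ k, WL θ (t i) k ∧ (4 : ℤ) ∣ k - k0 := by
    intro i
    induction i with
    | zero => intro _; exact ⟨k0, hk0, by simp⟩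
    | succ i ih =>
      intro hi
      obtain ⟨k, hk, hd⟩ := ih (by omega)
      have hlt := ht i (by omega)
      have hlen := len_lt hn ht ht1 (show i < n by omega)
      rcases H i (by omega) with ⟨c1, c2, hm⟩ | ⟨w1, w2, hf⟩
      · obtain ⟨la, hla⟩ := exKL L J A c1
        obtain ⟨lb, hlb⟩ := exKL L J A c2
        obtain ⟨m, hm⟩ := mono4 L J nosq A hlt hlen c1 c2 hm hla hlb
        have e := hk.uniq (KL.wl hla)
        exact ⟨lb, KL.wl hlb, by
          obtain ⟨r, hr⟩ := hd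
          exact ⟨m + r, by linarith⟩⟩
      · obtain ⟨k', hk'⟩ := exWL L J A w2
        have e := arc_gen L J nosq A hlt hlen hf w1 w2 hk hk'
        exact ⟨k', hk', by rw [← e]; exact hd⟩
  obtain ⟨k, hk, r, hr⟩ := key n le_rfl
  rw [ht1] at hk
  have e := hk.uniq (hk0.per A)
  obtain ⟨u, hu⟩ := ho
  omega

end Pool.Agent.T2H16
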