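import Pool.Agent.T2H16.SA.Arc2

/-! Confined arcs in general position. -/

set_option autoImplicit false
open Complex Set Topology Metric
open scoped ComplexConjugate Pointwise

namespace Pool.Agent.T2H16

open Pool.Agent.H763R2 Pool.Agent.H763R2.An Pool.Agent.W675.Peg Pool.Agent.TH569.Peg
open Pool.Agent.Y535.PEG
open Pool.Agent.H763R2.Dm (NoSq floor_const b_true b_false)

variable {c q : ℝ → ℂ} {a b R : ℝ} {θ : ℝ → ℝ → ℝ} {g : ℤ} {u p : ℂ}

/-- image of a curve under a similarity -/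
def tr (u p : ℂ) (c : ℝ → ℂ) (t : ℝ) : ℂ := u * (c t - p)

theorem tr_loop (L : Loop c) : Loop (tr u p c) where
  cont := by have := L.cont; unfold tr; fun_prop
  per t := by unfold tr; rw [L.per]

theorem tr_inj (hu : u ≠ 0) (J : Inj c) : Inj (tr u p c) := fun x y h1 h2 h => by
  unfold tr at h
  exact J x y h1 h2 (sub_left_injective (mul_left_cancel₀ hu h))

theorem tr_mem (hu : u ≠ 0) {z : ℂ} : u * (z - p) ∈ range (tr u p c) ↔ z ∈ range c := by
  constructor
  · rintro ⟨t, ht⟩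
    exact ⟨t, sub_left_injective (mul_left_cancel₀ hu ht)⟩
  · rintro ⟨t, rfl⟩
    exact ⟨t, rfl⟩

theorem tr_nosq (hu : u ≠ 0) (h : NoSq (range c)) : NoSq (range (tr u p c)) := by
  rintro ⟨z, w, hw, h1, h2, h3, h4⟩
  have key : ∀ z : ℂ, z ∈ range (tr u p c) → u⁻¹ * z + p ∈ range c := by
    intro z hz
    rw [← tr_mem (p := p) hu, add_sub_cancel_right, mul_inv_cancel_left₀ hu]
    exact hz
  refine h ⟨u⁻¹ * z + p, u⁻¹ * w, mul_ne_zero (inv_ne_zero hu) hw, key _ h1, ?_, ?_, ?_⟩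
  · have := key _ h2
    rwa [show u⁻¹ * (z + w) + p = u⁻¹ * z + p + u⁻¹ * w by ring] at this
  · have := key _ h3
    rwa [show u⁻¹ * (z + w + I * w) + p = u⁻¹ * z + p + u⁻¹ * w + I * (u⁻¹ * w) by ring] at this
  · have := key _ h4
    rwa [show u⁻¹ * (z + I * w) + p = u⁻¹ * z + p + I * (u⁻¹ * w) by ring] at this

theorem tr_sub (x y : ℝ) : tr u p c x - tr u p c y = u * (c x - c y) := by unfold tr; ring

theorem mul_conj_scale (u z w : ℂ) : (u * z) * conj (u * w) = ((normSq u : ℝ) : ℂ) * (z * conj w) := by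
  rw [map_mul, normSq_eq_conj_mul_self]; ring

theorem Narrow.tr (hu : u ≠ 0) {z w : ℂ} (h : Narrow z w) : Narrow (u * z) (u * w) := by
  unfold Narrow at h ⊢
  rw [mul_conj_scale, re_ofReal_mul, im_ofReal_mul, abs_mul, abs_of_pos (normSq_pos.2 hu)]
  exact mul_lt_mul_of_pos_left h (normSq_pos.2 hu)

theorem Wide.tr (hu : u ≠ 0) {s : ℝ} (h : Wide c s) : Wide (tr u p c) s := by
  obtain ⟨ρ, hρ, h1, h2, h3⟩ := h
  refine ⟨ρ, hρ, ?_, ?_, ?_⟩
  · intro x y a1 a2 a3 a4
    rw [tr_sub, tr_sub]; exact (h1 x y a1 a2 a3 a4).tr hu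
  · intro x y a1 a2 a3 a4
    rw [tr_sub, tr_sub]; exact (h2 x y a1 a2 a3 a4).tr hu
  · intro x y a1 a2 a3 a4
    rw [tr_sub, tr_sub, mul_conj_scale, re_ofReal_mul]
    exact mul_neg_of_pos_of_neg (normSq_pos.2 hu) (h3 x y a1 a2 a3 a4)

theorem tr_wc (hu : u ≠ 0) {z : ℂ} {n : ℤ} : IsWc (tr u p c) (u * (z - p)) n ↔ IsWc c z n := by
  constructor
  · rintro ⟨k, hk, ek, e⟩
    refine ⟨fun t => k t - log u, hk.sub continuous_const, fun t => ?_, by rw [← e]; ring⟩
    rw [exp_sub, ek, exp_log hu]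
    unfold tr
    field_simp
    ring
  · rintro ⟨k, hk, ek, e⟩
    refine ⟨fun t => k t + log u, hk.add continuous_const, fun t => ?_, by rw [← e]; ring⟩
    rw [exp_add, ek, exp_log hu]
    unfold tr
    ring

theorem tr_mgc (hu : u ≠ 0) (z : ℂ) : mgc (tr u p c) (u * (z - p)) = ‖u‖ * mgc c z := by
  have hd : infDist (u * (z - p)) (range (tr u p c)) = ‖u‖ * infDist z (range c) := by
    have e : range (tr u p c) = u • ((fun z => z - p) '' range c) := by
      ext w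
      constructor
      · rintro ⟨t, rfl⟩
        exact ⟨c t - p, ⟨c t, mem_range_self t, rfl⟩, rfl⟩
      · rintro ⟨_, ⟨_, ⟨t, rfl⟩, rfl⟩, rfl⟩
        exact ⟨t, rfl⟩
    have hi : Isometry fun z : ℂ => z - p := Isometry.of_dist_eq fun x y => by
      rw [dist_sub_right]
    rw [e, ← smul_eq_mul u, infDist_smul₀ hu, infDist_image hi]
  have ho : Odc (tr u p c) (u * (z - p)) ↔ Odc c z := by
    unfold Odc
    simp only [tr_wc hu]
  unfold mgc
  by_cases o : Odc c z
  · rw [if_pos o, if_pos (ho.2 o), hd]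
  · rw [if_neg o, if_neg (fun h => o (ho.1 h)), hd]; ring

theorem tr_ang (hu : u ≠ 0) (A : Ang c (mgc c) θ g) : Ang (tr u p c) (mgc (tr u p c)) θ g where
  cont := A.cont
  ex x y h1 h2 := by
    obtain ⟨ρ, hρ, e1, e2⟩ := A.ex x y h1 h2
    refine ⟨‖u‖ * ρ, mul_pos (norm_pos_iff.2 hu) hρ, ?_, ?_⟩
    · rw [show DD (tr u p c) x y = u * (DD c x y - p) by rw [DD_eq, DD_eq]; unfold tr; ring,
        tr_mgc hu, e1]; ring
    · rw [show CC (tr u p c) x y = u * (CC c x y - p) by rw [CC_eq, CC_eq]; unfold tr; ring,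
        tr_mgc hu, e2]; ring
  per := A.per

/-- shapes over a chord -/
def Shape (c : ℝ → ℂ) (a b : ℝ) : Prop := ∃ h : ℝ, 0 ≤ h ∧
  (∀ s ∈ Icc a b, 0 ≤ (c s).re ∧ (c s).re ≤ 1 ∧ ((c s).re < 2 * h → |(c s).im| ≤ (c s).re) ∧
    (1 - 2 * h < (c s).re → |(c s).im| ≤ 1 - (c s).re)) ∧
  ((∀ s ∈ Icc a b, -h ≤ (c s).im) ∨ (∀ s ∈ Icc a b, (c s).im ≤ h))

theorem Shape.cf (h : Shape c a b) : Cf c a b := by
  obtain ⟨h, h0, h1, h2⟩ := h
  refine ⟨fun t ht => (h1 t ht).1, fun t ht => (h1 t ht).2.1, ?_, ?_⟩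
  · intro t ht u hu hlt
    obtain ⟨t1, t2, t3, t4⟩ := h1 t ht
    obtain ⟨u1, u2, u3, u4⟩ := h1 u hu
    rcases h2 with h2 | h2
    · have a1 := h2 t ht
      have a2 := (abs_le.1 (u3 (by linarith))).2
      rcases lt_or_ge (c t).re (2 * h) with h3 | h3
      · have a3 := (abs_le.1 (t3 h3)).1
        linarith
      · linarith
    · rcases lt_or_ge (c t).re (2 * h) with h3 | h3
      · have a3 := (abs_le.1 (t3 h3)).1
        have a2 := (abs_le.1 (u3 (by linarith))).2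
        linarith
      · have a4 := h2 u hu
        linarith
  · intro t ht u hu hlt
    obtain ⟨t1, t2, t3, t4⟩ := h1 t ht
    obtain ⟨u1, u2, u3, u4⟩ := h1 u hu
    rcases h2 with h2 | h2
    · have a1 := h2 t ht
      have a2 := (abs_le.1 (u4 (by linarith))).2
      rcases lt_or_ge (1 - 2 * h) (c t).re with h3 | h3
      · have a3 := (abs_le.1 (t4 h3)).1
        linarith
      · linarith
    · rcases lt_or_ge (1 - 2 * h) (c t).re with h3 | h3
      · have a3 := (abs_le.1 (t4 h3)).1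
        have a2 := (abs_le.1 (u4 (by linarith))).2
        linarith
      · have a4 := h2 u hu
        linarith

/-- a confined arc does not change the number of half turns -/
theorem arc_gen (L : Loop c) (J : Inj c) (nosq : NoSq (range c)) (A : Ang c (mgc c) θ g)
    (hab : a < b) (hba : b < a + 1) (F : Cf (tr (c b - c a)⁻¹ (c a) c) a b)
    (Wa : Wide c a) (Wb : Wide c b) {k k' : ℤ} (hk : WL θ a k) (hk' : WL θ b k') : k = k' := by
  have hne : c b - c a ≠ 0 := sub_ne_zero.2 (J a b hab hba).symm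
  have hu := inv_ne_zero hne
  refine arc_const (tr_loop L) (tr_inj hu J) (tr_nosq hu nosq) (tr_ang hu A) hab hba ?_ ?_ F
    (Wa.tr hu) (Wb.tr hu) hk hk'
  · unfold tr; rw [sub_self, mul_zero]
  · unfold tr; exact inv_mul_cancel₀ hne

end Pool.Agent.T2H16
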