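import Pool.Agent.Y535.PEG.Amb
import Pool.Agent.Y535.PEG.Mon2

/-! Two closed curves with a common arc: on a connected set that avoids the rest of both curves, the
sides with respect to the two curves correspond. -/

set_option autoImplicit false
open Complex Set Topology Metric

namespace Pool.Agent.T2H16

open Pool.Agent.H763R2 Pool.Agent.H763R2.An Pool.Agent.W675.Peg Pool.Agent.TH569.Peg
open Pool.Agent.Y535.PEG
open Pool.Agent.H763R2.Dm (NoSq floor_const b_true b_false)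

variable {c q : ℝ → ℂ}

/-- periodic extension -/
theorem exPer {f : ℝ → ℂ} (hf : ContinuousOn f (Icc 0 1)) (h : f 0 = f 1) :
    ∃ g, Loop g ∧ (∀ t ∈ Icc (0:ℝ) 1, g t = f t) := by
  refine ⟨fun t => f (Int.fract t), ⟨hf.comp_fract'' h, fun t => by
    simp only [Int.fract_add_one]⟩, ?_⟩
  intro t ht
  rcases ht.2.lt_or_eq with h1 | h1
  · simp only [Int.fract_eq_self.2 ⟨ht.1, h1⟩]
  · subst h1; simp [h]

theorem exPerA {f : ℝ → ℂ} {a : ℝ} (hf : ContinuousOn f (Icc a (a + 1))) (h : f a = f (a + 1)) :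
    ∃ g, Loop g ∧ (∀ t ∈ Icc a (a + 1), g t = f t) := by
  obtain ⟨g, L, hg⟩ := exPer (f := fun t => f (t + a)) (hf.comp (by fun_prop) (fun t ht => by
    obtain ⟨h1, h2⟩ := ht
    exact ⟨by linarith, by linarith⟩)) (by
      simp only [zero_add]; rw [h, add_comm])
  refine ⟨fun t => g (t - a), ⟨L.cont.comp (by fun_prop), fun t => ?_⟩, fun t ht => ?_⟩
  · rw [show t + 1 - a = t - a + 1 by ring, L.per]
  · have h1 := ht.1
    have h2 := ht.2
    show g (t - a) = f t
    rw [hg (t - a) ⟨by linarith, by linarith⟩, sub_add_cancel]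

/-- the loop made of the two rests -/
theorem exRest (L : Loop c) (L' : Loop q) {a b : ℝ} (hab : a < b) (hb : b < a + 1)
    (heq : ∀ t ∈ Icc a b, q t = c t) :
    ∃ E, Loop E ∧ range E ⊆ c '' Icc b (a + 1) ∪ q '' Icc b (a + 1) ∧
      ∀ z, z ∉ range c → z ∉ range q → ∀ n m : ℤ, IsWc c z n → IsWc q z m → IsWc E z (n - m) := by
  have ea : c (a + 1) = c a := L.per a
  have ea' : q (a + 1) = c a := by rw [L'.per a, heq a ⟨le_rfl, hab.le⟩]
  have eb' : q b = c b := heq b ⟨hab.le, le_rfl⟩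
  set u : ℝ → ℝ := fun t => b + (a + 1 - b) * min 1 (2 * t) with hu
  set v : ℝ → ℝ := fun t => b + (a + 1 - b) * min 1 (2 - 2 * t) with hv
  have cu : Continuous u := by rw [hu]; fun_prop
  have cv : Continuous v := by rw [hv]; fun_prop
  have hc := L.cont
  have hq := L'.cont
  have u0 : u 0 = b := by simp [hu]
  have u1 : ∀ t, 1 / 2 ≤ t → u t = a + 1 := fun t ht => by
    simp only [hu]; rw [min_eq_left (by linarith)]; ring
  have v1 : v 1 = b := by simp [hv]
  have v0 : ∀ t, t ≤ 1 / 2 → v t = a + 1 := fun t ht => by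
    simp only [hv]; rw [min_eq_left (by linarith)]; ring
  have ur : ∀ t, 0 ≤ t → u t ∈ Icc b (a + 1) := fun t ht => by
    have h1 : 0 ≤ min 1 (2 * t) := le_min zero_le_one (by linarith)
    have h2 : min 1 (2 * t) ≤ 1 := min_le_left _ _
    simp only [hu]
    constructor <;> nlinarith
  have vr : ∀ t, t ≤ 1 → v t ∈ Icc b (a + 1) := fun t ht => by
    have h1 : 0 ≤ min 1 (2 - 2 * t) := le_min zero_le_one (by linarith)
    have h2 : min 1 (2 - 2 * t) ≤ 1 := min_le_left _ _
    simp only [hv]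
    constructor <;> nlinarith
  set f : ℝ → ℂ := fun t => c (u t) + q (v t) - c a with hf
  have cf : Continuous f := by rw [hf]; fun_prop
  have f1 : ∀ t, t ≤ 1 / 2 → f t = c (u t) := fun t ht => by
    simp only [hf]; rw [v0 t ht, ea']; ring
  have f2 : ∀ t, 1 / 2 ≤ t → f t = q (v t) := fun t ht => by
    simp only [hf]; rw [u1 t ht, ea]; ring
  obtain ⟨E, LE, hE⟩ := exPer (f := f) cf.continuousOn (by
    rw [f1 0 (by norm_num), f2 1 (by norm_num), u0, v1, eb'])
  refine ⟨E, LE, ?_, ?_⟩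
  · rw [LE.range_eq]
    rintro _ ⟨t, ht, rfl⟩
    rw [hE t ht]
    rcases le_total t (1 / 2) with h | h
    · rw [f1 t h]; exact Or.inl ⟨_, ur t ht.1, rfl⟩
    · rw [f2 t h]; exact Or.inr ⟨_, vr t ht.2, rfl⟩
  · intro z hzc hzq n m hn hm
    have hzE : z ∉ range E := by
      rw [LE.range_eq]
      rintro ⟨t, ht, e⟩
      rw [hE t ht] at e
      rcases le_total t (1 / 2) with h | h
      · rw [f1 t h] at e; exact hzc ⟨_, e⟩
      · rw [f2 t h] at e; exact hzq ⟨_, e⟩
    obtain ⟨k, hk, ek, e1⟩ := hn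
    obtain ⟨l, hl, el, e2⟩ := hm
    obtain ⟨N, K, hK, eK, e3⟩ := LE.exW hzE
    have nzc : ∀ t, c t - z ≠ 0 := fun t => by rw [← ek]; exact exp_ne_zero _
    have nzq : ∀ t, q t - z ≠ 0 := fun t => by rw [← el]; exact exp_ne_zero _
    have s1 := wc_step L hk ek e1 a
    have s2 := wc_step L' hl el e2 a
    have s3 : k a - l a = k b - l b := by
      refine H777R2.exp_const_on (X := ℝ) (A := Icc a b) isPreconnected_Icc
        (k := fun t => k t - l t) (by fun_prop) (c := 1) (fun t ht => ?_)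
        ⟨le_rfl, hab.le⟩ ⟨hab.le, le_rfl⟩
      rw [exp_sub, ek, el, heq t ht, div_self (nzc t)]
    have s4 := H777R2.exp_const_on (X := ℝ) (A := Icc (0:ℝ) 1) isPreconnected_Icc
      (k := fun t => K t - (k (u t) + l (v t) - l (a + 1))) (by fun_prop) (c := 1) (fun t ht => by
        have hE1 : E t - z ≠ 0 := by rw [← eK]; exact exp_ne_zero _
        rw [exp_sub, exp_sub, exp_add, eK, ek, el, el, ea', hE t ht]
        rw [hE t ht] at hE1
        rcases le_total t (1 / 2) with h | h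
        · rw [f1 t h] at hE1 ⊢
          rw [v0 t h, ea', mul_div_assoc, div_self (nzc a), mul_one, div_self hE1]
        · rw [f2 t h] at hE1 ⊢
          rw [u1 t h, ea, mul_comm, mul_div_assoc, div_self (nzc a), mul_one, div_self hE1])
      (x := 0) (y := 1) (by simp) (by simp)
    rw [u0, v1, v0 0 (by norm_num), u1 1 (by norm_num)] at s4
    have hfin : K 1 - K 0 = ((n - m : ℤ) : ℂ) * (2 * Real.pi * I) := by
      push_cast
      linear_combination -s4 + s3 + s1 - s2
    exact ⟨K, hK, eK, hfin⟩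

theorem mul_neg3 (L : Loop c) (L' : Loop q) {E : ℝ → ℂ} (LE : Loop E) {z : ℂ} (hzc : z ∉ range c)
    (hzq : z ∉ range q) (hzE : z ∉ range E)
    (h : ∀ n m : ℤ, IsWc c z n → IsWc q z m → IsWc E z (n - m)) :
    mgc c z * mgc q z * mgc E z < 0 := by
  obtain ⟨n, hn⟩ := L.exW hzc
  obtain ⟨m, hm⟩ := L'.exW hzq
  have hE := h n m hn hm
  have p1 := (mgc_sg L).par z hzc n hn
  have p2 := (mgc_sg L').par z hzq m hm
  have p3 := (mgc_sg LE).par z hzE _ hE
  rw [add_zero] at p1 p2 p3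
  push_cast at p3
  rw [p1, p2] at p3
  have n1 : mgc c z ≠ 0 := fun h0 => hzc ((mgc_sg L).zero L |>.1 h0)
  have n2 : mgc q z ≠ 0 := fun h0 => hzq ((mgc_sg L').zero L' |>.1 h0)
  have n3 : mgc E z ≠ 0 := fun h0 => hzE ((mgc_sg LE).zero LE |>.1 h0)
  have d1 : (1 : ZMod 2) ≠ 0 := by decide
  have d2 : (0 : ZMod 2) - 1 = 1 := by decide
  rcases lt_or_gt_of_ne n1 with h1 | h1 <;> rcases lt_or_gt_of_ne n2 with h2 | h2
  · rw [b_false (not_lt.2 h1.le), b_false (not_lt.2 h2.le), sub_zero] at p3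
    rcases lt_or_gt_of_ne n3 with h3 | h3
    · exact mul_neg_of_pos_of_neg (mul_pos_of_neg_of_neg h1 h2) h3
    · rw [b_true h3] at p3; exact absurd p3.symm d1
  · rw [b_false (not_lt.2 h1.le), b_true h2, d2] at p3
    rcases lt_or_gt_of_ne n3 with h3 | h3
    · rw [b_false (not_lt.2 h3.le)] at p3; exact absurd p3 d1
    · exact mul_neg_of_neg_of_pos (mul_neg_of_neg_of_pos h1 h2) h3
  · rw [b_true h1, b_false (not_lt.2 h2.le), sub_zero] at p3
    rcases lt_or_gt_of_ne n3 with h3 | h3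
    · rw [b_false (not_lt.2 h3.le)] at p3; exact absurd p3 d1
    · exact mul_neg_of_neg_of_pos (mul_neg_of_pos_of_neg h1 h2) h3
  · rw [b_true h1, b_true h2, sub_self] at p3
    rcases lt_or_gt_of_ne n3 with h3 | h3
    · exact mul_neg_of_pos_of_neg (mul_pos h1 h2) h3
    · rw [b_true h3] at p3; exact absurd p3.symm d1

/-- sides with respect to two curves with a common arc -/
theorem side_eq (L : Loop c) (L' : Loop q) {a b : ℝ} (hab : a < b) (hb : b < a + 1)
    (heq : ∀ t ∈ Icc a b, q t = c t) {S : Set ℂ} (hS : IsPreconnected S)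
    (h1 : ∀ z ∈ S, z ∉ c '' Icc b (a + 1)) (h2 : ∀ z ∈ S, z ∉ q '' Icc b (a + 1)) :
    ∃ τ : ℝ, (τ = 1 ∨ τ = -1) ∧ ∀ z ∈ S, (z ∈ range c ↔ z ∈ range q) ∧
      (z ∉ range c → 0 < τ * (mgc c z * mgc q z)) := by
  obtain ⟨E, LE, hr, hw⟩ := exRest L L' hab hb heq
  have key : ∀ {c : ℝ → ℂ}, Loop c → ∀ {z}, z ∈ range c → z ∉ c '' Icc b (a + 1) →
      ∃ t ∈ Icc a b, c t = z := by
    rintro c L z ⟨t, rfl⟩ hz
    -- move t into [a, a+1)
    have hp : Function.Periodic c 1 := L.per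
    obtain ⟨s, hs, e⟩ := hp.exists_mem_Ico one_pos t a
    rcases le_total s b with h | h
    · exact ⟨s, ⟨hs.1, h⟩, e.symm⟩
    · exact absurd ⟨s, ⟨h, hs.2.le⟩, e.symm⟩ hz
  have iff : ∀ z ∈ S, (z ∈ range c ↔ z ∈ range q) := by
    intro z hz
    constructor
    · intro h
      obtain ⟨t, ht, e⟩ := key L h (h1 z hz)
      exact ⟨t, by rw [heq t ht, e]⟩
    · intro h
      obtain ⟨t, ht, e⟩ := key L' h (h2 z hz)
      exact ⟨t, by rw [← heq t ht, e]⟩
  have hE : ∀ z ∈ S, mgc E z ≠ 0 := by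
    intro z hz h0
    rcases hr ((mgc_sg LE).zero LE |>.1 h0) with h | h
    · exact h1 z hz h
    · exact h2 z hz h
  rcases S.eq_empty_or_nonempty with rfl | ⟨z0, hz0⟩
  · exact ⟨1, Or.inl rfl, fun z hz => absurd hz (notMem_empty z)⟩
  have hs : ∀ z ∈ S, 0 < mgc E z0 * mgc E z := fun z hz =>
    sign_pre hS (mgc_sg LE).cont.continuousOn hE hz0 hz
  have hneg : ∀ z ∈ S, z ∉ range c → mgc c z * mgc q z * mgc E z < 0 := by
    intro z hz hzc
    have hzq : z ∉ range q := fun h => hzc ((iff z hz).2 h)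
    have hzE : z ∉ range E := fun h => by
      have := hE z hz
      exact this ((mgc_sg LE).zero LE |>.2 h)
    exact mul_neg3 L L' LE hzc hzq hzE (hw z hzc hzq)
  rcases lt_or_gt_of_ne (hE z0 hz0) with h | h
  · refine ⟨1, Or.inl rfl, fun z hz => ⟨iff z hz, fun hzc => ?_⟩⟩
    have a1 := hs z hz
    have a2 := hneg z hz hzc
    have a3 : mgc E z < 0 := by
      by_contra hcon
      push Not at hcon
      nlinarith
    rw [one_mul]
    by_contra hcon
    push Not at hcon
    nlinarith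
  · refine ⟨-1, Or.inr rfl, fun z hz => ⟨iff z hz, fun hzc => ?_⟩⟩
    have a1 := hs z hz
    have a2 := hneg z hz hzc
    have a3 : 0 < mgc E z := (mul_pos_iff_of_pos_left h).1 a1
    have a4 : mgc c z * mgc q z < 0 := by
      by_contra hcon
      push Not at hcon
      nlinarith [mul_nonneg hcon a3.le]
    linarith

end Pool.Agent.T2H16
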