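import Pool.Agent.T2H16.SA.Conf

/-! Squares over short chords of a confined arc do not meet the rest of the curve. -/

set_option autoImplicit false
open Complex Set Topology Metric
open scoped ComplexConjugate

namespace Pool.Agent.T2H16

open Pool.Agent.H763R2 Pool.Agent.H763R2.An Pool.Agent.W675.Peg Pool.Agent.TH569.Peg
open Pool.Agent.Y535.PEG
open Pool.Agent.H763R2.Dm (NoSq floor_const b_true b_false)

variable {c q : ℝ → ℂ} {a b R : ℝ}

theorem narrowD {A B : ℂ} (h : Narrow A B) : 0 < ((A + I * (B - A)) * conj B).re := by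
  have h1 := (neg_le_abs _).trans_lt h
  simp only [mul_re, mul_im, conj_re, conj_im] at h1
  simp
  linarith

theorem narrowC {A B : ℂ} (h : Narrow A B) : 0 < ((B + I * (B - A)) * conj A).re := by
  have h1 := (neg_le_abs _).trans_lt h
  simp only [mul_re, mul_im, conj_re, conj_im] at h1
  simp
  linarith

theorem cornerA (K : Cl c q a b R) (J : Inj c) (F : Cf c a b) (hR : 2 ≤ R) (W : Wide c a) :
    ∃ δ > 0, ∀ t, a < t → t < a + δ → ∀ w, (w ∈ c '' Icc b (a + 1) ∨ w ∈ q '' Icc b (a + 1)) →
      ‖w - c a‖ < δ → ((w - c a) * conj (c t - c a)).re ≤ 0 := by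
  obtain ⟨ρ, hρ, -, -, hx⟩ := W
  have hab := K.ab
  have hba := K.ba
  obtain ⟨ρ1, hρ1, hnear⟩ := near_par K.L J (δ := min (min ρ (b - a)) (1 / 2))
    (by have : 0 < b - a := by linarith
        positivity)
  refine ⟨min (min ρ ρ1) (min (b - a) 1), by
    have : 0 < b - a := by linarith
    positivity, ?_⟩
  intro t h1 h2 w hw hn
  have m1 : min (min ρ ρ1) (min (b - a) 1) ≤ ρ := (min_le_left _ _).trans (min_le_left _ _)
  have m2 : min (min ρ ρ1) (min (b - a) 1) ≤ ρ1 := (min_le_left _ _).trans (min_le_right _ _)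
  have m3 : min (min ρ ρ1) (min (b - a) 1) ≤ b - a := (min_le_right _ _).trans (min_le_left _ _)
  have m4 : min (min ρ ρ1) (min (b - a) 1) ≤ 1 := (min_le_right _ _).trans (min_le_right _ _)
  rcases hw with ⟨z, hz, rfl⟩ | ⟨z, hz, rfl⟩
  · obtain ⟨n, e, he, hs⟩ := hnear z a (hn.trans_le m2)
    obtain ⟨he1, he2⟩ := lt_min_iff.1 he
    obtain ⟨he3, he4⟩ := lt_min_iff.1 he1
    rw [abs_lt] at he2 he3 he4
    have n1 : n = 1 := by
      have h5 : (0:ℝ) < n := by linarith [hz.1]
      have h6 : (n:ℝ) < 2 := by linarith [hz.2]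
      have h7 : 0 < n := by exact_mod_cast h5
      have h8 : n < 2 := by exact_mod_cast h6
      omega
    subst n1
    push_cast at hs
    have ez : c z = c (a + e) := by rw [hs, K.L.per]
    rw [ez]
    have he0 : e ≤ 0 := by linarith [hz.2]
    rcases he0.lt_or_eq with h | h
    · exact (hx (a + e) t (by linarith) (by linarith) h1 (by linarith)).le
    · rw [h, add_zero, sub_self, zero_mul, zero_re]
  · rw [K.ca, sub_zero] at hn ⊢
    rw [sub_zero]
    have ht := F.re0 t ⟨h1.le, by linarith⟩
    rcases K.rest z hz with ⟨h3, h4⟩ | ⟨h3, h4⟩ | ⟨-, h4⟩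
    · simp only [mul_re, conj_re, conj_im, h3]
      nlinarith [mul_nonneg (neg_nonneg.2 h4) ht]
    · have := (le_abs_self _).trans (abs_re_le_norm (q z))
      linarith
    · linarith

theorem cornerB (K : Cl c q a b R) (J : Inj c) (F : Cf c a b) (hR : 2 ≤ R) (W : Wide c b) :
    ∃ δ > 0, ∀ t, b - δ < t → t < b → ∀ w, (w ∈ c '' Icc b (a + 1) ∨ w ∈ q '' Icc b (a + 1)) →
      ‖w - c b‖ < δ → ((w - c b) * conj (c t - c b)).re ≤ 0 := by
  obtain ⟨ρ, hρ, -, -, hx⟩ := W
  have hab := K.ab
  have hba := K.ba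
  have hd1 : 0 < b - a := by linarith
  have hd2 : 0 < a + 1 - b := by linarith
  obtain ⟨ρ1, hρ1, hnear⟩ := near_par K.L J (δ := min (min ρ (min (b - a) (a + 1 - b))) (1 / 2))
    (by positivity)
  refine ⟨min (min ρ ρ1) (min (b - a) 1), by positivity, ?_⟩
  intro t h1 h2 w hw hn
  have m1 : min (min ρ ρ1) (min (b - a) 1) ≤ ρ := (min_le_left _ _).trans (min_le_left _ _)
  have m2 : min (min ρ ρ1) (min (b - a) 1) ≤ ρ1 := (min_le_left _ _).trans (min_le_right _ _)
  have m3 : min (min ρ ρ1) (min (b - a) 1) ≤ b - a := (min_le_right _ _).trans (min_le_left _ _)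
  have m4 : min (min ρ ρ1) (min (b - a) 1) ≤ 1 := (min_le_right _ _).trans (min_le_right _ _)
  rcases hw with ⟨z, hz, rfl⟩ | ⟨z, hz, rfl⟩
  · obtain ⟨n, e, he, hs⟩ := hnear z b (hn.trans_le m2)
    obtain ⟨he1, he2⟩ := lt_min_iff.1 he
    obtain ⟨he3, he4⟩ := lt_min_iff.1 he1
    obtain ⟨he4, he5⟩ := lt_min_iff.1 he4
    rw [abs_lt] at he2 he3 he4 he5
    have n1 : n = 0 := by
      have h5 : (-1:ℝ) < n := by linarith [hz.1]
      have h6 : (n:ℝ) < 1 := by linarith [hz.2]
      have h7 : -1 < n := by exact_mod_cast h5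
      have h8 : n < 1 := by exact_mod_cast h6
      omega
    subst n1
    push_cast at hs
    rw [add_zero] at hs
    rw [hs]
    have he0 : 0 ≤ e := by linarith [hz.1]
    rcases he0.lt_or_eq with h | h
    · have := hx t (b + e) (by linarith) h2 (by linarith) (by linarith)
      simp only [mul_re, conj_re, conj_im] at this ⊢
      linarith
    · rw [← h, add_zero, sub_self, zero_mul, zero_re]
  · rw [K.cb] at hn ⊢
    have ht := F.re1 t ⟨by linarith, h2.le⟩
    have hre := (abs_re_le_norm (q z - 1)).trans_lt hn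
    rw [sub_re, one_re, abs_lt] at hre
    rcases K.rest z hz with ⟨h3, h4⟩ | ⟨h3, h4⟩ | ⟨-, h4⟩
    · linarith [hre.1]
    · simp only [mul_re, conj_re, conj_im, sub_re, sub_im, one_re, one_im, h3]
      nlinarith [mul_nonneg (sub_nonneg.2 h4) (sub_nonneg.2 ht)]
    · have := norm_add_le (q z - 1) 1
      rw [sub_add_cancel, norm_one] at this
      linarith

/-- squares over short chords of the arc do not meet the rests of the two curves -/
theorem thin (K : Cl c q a b R) (J : Inj c) (F : Cf c a b) (hR : 2 ≤ R) (Wa : Wide c a)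
    (Wb : Wide c b) (hRc : ∀ t ∈ Icc a b, ‖c t‖ < R) :
    ∃ ε > 0, ∀ x y, a < x → x ≤ y → y < b → y < x + ε →
      ∀ w, (w ∈ c '' Icc b (a + 1) ∨ w ∈ q '' Icc b (a + 1)) → DD c x y ≠ w ∧ CC c x y ≠ w := by
  obtain ⟨δ1, hδ1, h1⟩ := cornerA K J F hR Wa
  obtain ⟨δ2, hδ2, h2⟩ := cornerB K J F hR Wb
  have Wa' := Wa
  have Wb' := Wb
  obtain ⟨ρa, hρa, noa, -, -⟩ := Wa'
  obtain ⟨ρb, hρb, -, nib, -⟩ := Wb'
  have hab := K.ab
  have hba := K.ba
  -- continuity at the ends
  obtain ⟨η1, hη1, c1⟩ := Metric.continuous_iff.1 K.L.cont a (δ1 / 8) (by positivity)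
  obtain ⟨η2, hη2, c2⟩ := Metric.continuous_iff.1 K.L.cont b (δ2 / 8) (by positivity)
  simp only [dist_eq_norm, Real.norm_eq_abs] at c1 c2
  obtain ⟨d, hd, d1, d2, d3, d4, d5, d6, d7⟩ : ∃ d > 0, d ≤ δ1 ∧ d ≤ δ2 ∧ d ≤ ρa ∧ d ≤ ρb ∧
      d ≤ η1 ∧ d ≤ η2 ∧ 2 * d < b - a := by
    have : 0 < b - a := by linarith
    refine ⟨min (min (min δ1 δ2) (min ρa ρb)) (min (min η1 η2) ((b - a) / 3)), by positivity,
      ?_, ?_, ?_, ?_, ?_, ?_, ?_⟩
    · exact (min_le_left _ _).trans ((min_le_left _ _).trans (min_le_left _ _))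
    · exact (min_le_left _ _).trans ((min_le_left _ _).trans (min_le_right _ _))
    · exact (min_le_left _ _).trans ((min_le_right _ _).trans (min_le_left _ _))
    · exact (min_le_left _ _).trans ((min_le_right _ _).trans (min_le_right _ _))
    · exact (min_le_right _ _).trans ((min_le_left _ _).trans (min_le_left _ _))
    · exact (min_le_right _ _).trans ((min_le_left _ _).trans (min_le_right _ _))
    · have : min (min (min δ1 δ2) (min ρa ρb)) (min (min η1 η2) ((b - a) / 3)) ≤ (b - a) / 3 :=
        (min_le_right _ _).trans (min_le_right _ _)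
      linarith
  -- the middle part
  have hcomp : IsCompact (c '' Icc (a + d / 2) (b - d / 2)) := isCompact_Icc.image K.L.cont
  have hcl : IsClosed (c '' Icc b (a + 1) ∪ q '' Icc b (a + 1)) :=
    ((isCompact_Icc.image K.L.cont).union (isCompact_Icc.image K.L'.cont)).isClosed
  have hdisj : Disjoint (c '' Icc (a + d / 2) (b - d / 2)) (c '' Icc b (a + 1) ∪ q '' Icc b (a + 1)) := by
    rw [Set.disjoint_left]
    rintro _ ⟨t, ht, rfl⟩ h
    have htI : t ∈ Icc a b := ⟨by linarith [ht.1], by linarith [ht.2]⟩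
    have e0 : c t ≠ 0 := fun h0 => J a t (by linarith [ht.1]) (by linarith [ht.2]) (by
      rw [K.ca, h0])
    have e1 : c t ≠ 1 := fun h0 => J t b (by linarith [ht.2]) (by linarith [ht.1]) (by
      rw [K.cb, h0])
    rcases h with ⟨u, hu, e⟩ | ⟨u, hu, e⟩
    · rcases hu.2.lt_or_eq with h | h
      · exact J t u (by linarith [ht.2, hu.1]) (by linarith [ht.1]) e.symm
      · rw [h, K.L.per, K.ca] at e
        exact e0 e.symm
    · have r0 := F.re0 t htI
      have r1 := F.re1 t htI
      have r2 := hRc t htI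
      rw [← e] at r0 r1 r2 e0 e1
      rcases K.rest u hu with ⟨h3, h4⟩ | ⟨h3, h4⟩ | ⟨h3, h4⟩
      · exact e0 (Complex.ext (le_antisymm h4 r0) h3)
      · exact e1 (Complex.ext (le_antisymm r1 h4) h3)
      · linarith
  obtain ⟨r, hr, hthick⟩ := hdisj.exists_thickenings hcomp hcl
  have huc : UniformContinuousOn c (Icc a b) :=
    isCompact_Icc.uniformContinuousOn_of_continuous K.L.cont.continuousOn
  obtain ⟨η, hη, hu⟩ := Metric.uniformContinuousOn_iff.1 huc (r / 2) (by positivity)
  refine ⟨min (d / 2) η, by positivity, ?_⟩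
  intro x y hx hxy hy hyx w hw
  have ε1 : y < x + d / 2 := hyx.trans_le (by linarith [min_le_left (d / 2) η])
  have ε2 : y < x + η := hyx.trans_le (by linarith [min_le_right (d / 2) η])
  rcases le_total x (a + d / 2) with hxa | hxa
  · -- near the first end
    have hnar : Narrow (c x - c a) (c y - c a) := noa x y hx (by linarith) (by linarith)
      (by linarith)
    have nx := c1 x (by rw [abs_lt]; constructor <;> linarith)
    have ny := c1 y (by rw [abs_lt]; constructor <;> linarith)
    have nxy : ‖c y - c x‖ < δ1 / 4 := by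
      have := norm_add_le (c y - c a) (c a - c x)
      rw [sub_add_sub_cancel, norm_sub_rev (c a)] at this
      linarith
    constructor
    · rintro rfl
      have := h1 y (by linarith) (by linarith) _ hw (by
        rw [DD_eq, show c x + I * (c y - c x) - c a = (c x - c a) + I * (c y - c x) by ring]
        refine (norm_add_le _ _).trans_lt ?_
        rw [norm_mul, norm_I, one_mul]; linarith)
      have h3 := narrowD hnar
      rw [DD_eq, show c x + I * (c y - c x) - c a =
        (c x - c a) + I * ((c y - c a) - (c x - c a)) by ring] at this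
      linarith
    · rintro rfl
      have := h1 x (by linarith) (by linarith) _ hw (by
        rw [CC_eq, show c y + I * (c y - c x) - c a = (c y - c a) + I * (c y - c x) by ring]
        refine (norm_add_le _ _).trans_lt ?_
        rw [norm_mul, norm_I, one_mul]; linarith)
      have h3 := narrowC hnar
      rw [CC_eq, show c y + I * (c y - c x) - c a =
        (c y - c a) + I * ((c y - c a) - (c x - c a)) by ring] at this
      linarith
  rcases le_total x (b - d / 2) with hxb | hxb
  · -- the middle
    have h5 := hu y ⟨by linarith, by linarith⟩ x ⟨by linarith, by linarith⟩ (by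
      rw [Real.dist_eq, abs_of_nonneg (by linarith)]; linarith)
    rw [dist_eq_norm] at h5
    have hmem : c x ∈ c '' Icc (a + d / 2) (b - d / 2) := ⟨x, ⟨hxa, hxb⟩, rfl⟩
    have far : ∀ z : ℂ, ‖z - c x‖ < r → z ≠ w := by
      rintro z hz rfl
      exact Set.disjoint_left.1 hthick (mem_thickening_iff.2 ⟨c x, hmem, by
        rw [dist_eq_norm]; exact hz⟩) (self_subset_thickening hr _ hw)
    constructor
    · refine far _ ?_
      rw [DD_eq, add_sub_cancel_left, norm_mul, norm_I, one_mul]; linarith
    · refine far _ ?_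
      rw [CC_eq, show c y + I * (c y - c x) - c x = (c y - c x) + I * (c y - c x) by ring]
      refine (norm_add_le _ _).trans_lt ?_
      rw [norm_mul, norm_I, one_mul]; linarith
  · -- near the second end
    have hnar : Narrow (c x - c b) (c y - c b) := nib x y (by linarith) (by linarith) (by linarith)
      (by linarith)
    have nx := c2 x (by rw [abs_lt]; constructor <;> linarith)
    have ny := c2 y (by rw [abs_lt]; constructor <;> linarith)
    have nxy : ‖c y - c x‖ < δ2 / 4 := by
      have := norm_add_le (c y - c b) (c b - c x)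
      rw [sub_add_sub_cancel, norm_sub_rev (c b)] at this
      linarith
    constructor
    · rintro rfl
      have := h2 y (by linarith) (by linarith) _ hw (by
        rw [DD_eq, show c x + I * (c y - c x) - c b = (c x - c b) + I * (c y - c x) by ring]
        refine (norm_add_le _ _).trans_lt ?_
        rw [norm_mul, norm_I, one_mul]; linarith)
      have h3 := narrowD hnar
      rw [DD_eq, show c x + I * (c y - c x) - c b =
        (c x - c b) + I * ((c y - c b) - (c x - c b)) by ring] at this
      linarith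
    · rintro rfl
      have := h2 x (by linarith) (by linarith) _ hw (by
        rw [CC_eq, show c y + I * (c y - c x) - c b = (c y - c b) + I * (c y - c x) by ring]
        refine (norm_add_le _ _).trans_lt ?_
        rw [norm_mul, norm_I, one_mul]; linarith)
      have h3 := narrowC hnar
      rw [CC_eq, show c y + I * (c y - c x) - c b =
        (c y - c b) + I * ((c y - c b) - (c x - c b)) by ring] at this
      linarith

end Pool.Agent.T2H16
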