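import Pool.Agent.T2H16.SA.Per

/-! Wide corners: points of a curve at which two narrow sides form an obtuse angle. -/

set_option autoImplicit false
open Complex Set Topology Metric
open scoped ComplexConjugate

namespace Pool.Agent.T2H16

open Pool.Agent.H763R2 Pool.Agent.H763R2.An Pool.Agent.W675.Peg Pool.Agent.TH569.Peg
open Pool.Agent.Y535.PEG
open Pool.Agent.H763R2.Dm (NoSq floor_const b_true b_false)

variable {c q : ℝ → ℂ} {θ : ℝ → ℝ → ℝ} {g : ℤ}

/-- the angle between `z` and `w` is less than 45 degrees -/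
def Narrow (z w : ℂ) : Prop := |(z * conj w).im| < (z * conj w).re

/-- near the parameter `s` the curve consists of two narrow sides that form an obtuse angle -/
def Wide (c : ℝ → ℂ) (s : ℝ) : Prop := ∃ ρ > 0,
  (∀ x y, s < x → x < s + ρ → s < y → y < s + ρ → Narrow (c x - c s) (c y - c s)) ∧
  (∀ x y, s - ρ < x → x < s → s - ρ < y → y < s → Narrow (c x - c s) (c y - c s)) ∧
  (∀ x y, s - ρ < x → x < s → s < y → y < s + ρ → ((c x - c s) * conj (c y - c s)).re < 0)

theorem alg_out {p q a b l : ℝ} (hp : 0 < p) (ha : 0 ≤ a) (hb : 0 ≤ b) (h0 : 0 ≤ l) (h1 : l ≤ 1)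
    (e1 : (1 - l) * q + p + b < -((1 - l) * p) + q + l * b)
    (e2 : (1 - l) * a - l * p + q < 0) : False := by
  have h2 := mul_nonneg h0 (mul_nonneg (sub_nonneg.2 h1) ha)
  have h3 := mul_nonneg (sub_nonneg.2 h1) hb
  have h4 := mul_nonneg (mul_nonneg (sub_nonneg.2 h1) (by linarith : (0:ℝ) ≤ 2 + l)) hp.le
  have h5 := mul_le_mul_of_nonneg_left e2.le h0
  nlinarith

theorem alg_in {p q a b l : ℝ} (hp : 0 < p) (ha : 0 ≤ a) (hb : 0 ≤ b) (h0 : 0 ≤ l) (h1 : l ≤ 1)
    (e1 : a + l * q + p < (1 - l) * a - l * p + q)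
    (e2 : -((1 - l) * p) + q + l * b < 0) : False := by
  have h2 := mul_nonneg h0 (mul_nonneg (sub_nonneg.2 h1) hb)
  have h3 := mul_nonneg h0 ha
  have h4 := mul_nonneg (mul_nonneg h0 (by linarith : (0:ℝ) ≤ 3 - l)) hp.le
  have h5 := mul_le_mul_of_nonneg_left e2.le (sub_nonneg.2 h1)
  nlinarith

theorem alg_zero {p q a b l : ℝ} (hp : 0 < p) (ha : 0 ≤ a) (hb : 0 ≤ b) (h0 : 0 ≤ l) (h1 : l ≤ 1)
    (e1 : (1 - l) * q + p + b = 0) (e2 : -((1 - l) * p) + q + l * b = 0)
    (e3 : a + l * q + p = 0) : False := by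
  have h3 := mul_nonneg (sub_nonneg.2 h1) hb
  have h4 := mul_nonneg (by linarith : (0:ℝ) ≤ 1 - l) hp.le
  nlinarith

/-- the sides of the small squares over chords around a wide corner do not meet the curve -/
theorem wide_seg (L : Loop c) (J : Inj c) {s : ℝ} (h : Wide c s) : ∃ ρ > 0, ρ ≤ 1 / 2 ∧ ∀ x y : ℝ,
    s - ρ < x → x ≤ s → s ≤ y → y < s + ρ → x < y → ∀ l ∈ Icc (0:ℝ) 1,
    c x + l * (c y - c x) + I * (c y - c x) ∉ range c := by
  obtain ⟨ρ0, hρ0, ho, hi, hx⟩ := h
  obtain ⟨ρ1, hρ1, hnear⟩ := near_par L J hρ0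
  obtain ⟨ρ2, hρ2, hcont⟩ := Metric.continuous_iff.1 L.cont s (ρ1 / 8) (by positivity)
  simp only [dist_eq_norm] at hcont
  refine ⟨min (min ρ0 ρ2) (1 / 2), by positivity, min_le_right _ _, ?_⟩
  intro x y hx1 hx2 hy1 hy2 hxy l hl
  have m0 : min (min ρ0 ρ2) (1 / 2) ≤ ρ0 := (min_le_left _ _).trans (min_le_left _ _)
  have m2 : min (min ρ0 ρ2) (1 / 2) ≤ ρ2 := (min_le_left _ _).trans (min_le_right _ _)
  have nx := hcont x (by rw [Real.norm_eq_abs, abs_lt]; constructor <;> linarith)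
  have ny := hcont y (by rw [Real.norm_eq_abs, abs_lt]; constructor <;> linarith)
  have nxy : ‖c y - c x‖ < ρ1 / 4 := by
    have := norm_add_le (c y - c s) (c s - c x)
    rw [sub_add_sub_cancel, norm_sub_rev (c s)] at this
    linarith
  have hl1 : ‖(l : ℂ) * (c y - c x)‖ ≤ ‖c y - c x‖ := by
    rw [norm_mul, norm_real, Real.norm_of_nonneg hl.1]
    exact mul_le_of_le_one_left (norm_nonneg _) hl.2
  have hI : ‖I * (c y - c x)‖ = ‖c y - c x‖ := by rw [norm_mul, norm_I, one_mul]
  have key : ∀ z, ‖c z - c s‖ < ρ1 → ∃ z', |z' - s| < ρ0 ∧ c z = c z' := by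
    intro z hz
    obtain ⟨n, e, he, hs⟩ := hnear z s hz
    exact ⟨s + e, by rw [add_sub_cancel_left]; exact he, by rw [hs, L.per_int]⟩
  rintro ⟨z0, hz0⟩
  obtain ⟨z, hz, ez⟩ := key z0 (by
    rw [hz0, show c x + l * (c y - c x) + I * (c y - c x) - c s =
      (c x - c s) + (l * (c y - c x) + I * (c y - c x)) by ring]
    refine (norm_add_le _ _).trans_lt ?_
    have := norm_add_le (l * (c y - c x)) (I * (c y - c x))
    linarith)
  rw [ez] at hz0
  rw [abs_lt] at hz
  obtain ⟨l0, l1⟩ := hl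
  -- coordinates
  obtain ⟨A, hA⟩ : ∃ A, A = c x - c s := ⟨_, rfl⟩
  obtain ⟨B, hB⟩ : ∃ B, B = c y - c s := ⟨_, rfl⟩
  obtain ⟨Z, hZ⟩ : ∃ Z, Z = c z - c s := ⟨_, rfl⟩
  have eZ : Z = A + l * (B - A) + I * (B - A) := by rw [hZ, hz0, hA, hB]; ring
  have Z1 : Z.re = A.re + l * (B.re - A.re) - (B.im - A.im) := by rw [eZ]; simp; ring
  have Z2 : Z.im = A.im + l * (B.im - A.im) + (B.re - A.re) := by rw [eZ]; simp
  have na := add_nonneg (mul_self_nonneg A.re) (mul_self_nonneg A.im)
  have nb := add_nonneg (mul_self_nonneg B.re) (mul_self_nonneg B.im)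
  have hxs : ∀ t, c t - c s = 0 → s - ρ0 < t → t < s + ρ0 → t ≠ s → False := by
    intro t h0 h1 h2 h3
    rcases lt_or_gt_of_ne h3 with h | h
    · have := hi t t h1 h h1 h
      rw [h0] at this
      simp [Narrow] at this
    · have := ho t t h h2 h h2
      rw [h0] at this
      simp [Narrow] at this
  rcases hx2.lt_or_eq with h | h
  · rcases hy1.lt_or_eq with h' | h'
    · -- proper case
      have c3 := hx x y (by linarith) h h' (by linarith)
      rw [← hA, ← hB] at c3
      simp only [mul_re, conj_re, conj_im] at c3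
      rcases lt_trichotomy z s with hzs | hzs | hzs
      · have c2 := hi z x (by linarith) hzs (by linarith) h
        have c4 := hx z y (by linarith) hzs h' (by linarith)
        rw [← hA, ← hZ] at c2
        rw [← hB, ← hZ] at c4
        simp only [Narrow, mul_re, mul_im, conj_re, conj_im] at c2 c4
        refine alg_in (p := -(A.re * B.re + A.im * B.im)) (q := A.im * B.re - A.re * B.im)
          (a := A.re * A.re + A.im * A.im) (b := B.re * B.re + B.im * B.im) (l := l)
          (by linarith) na nb l0 l1 ?_ ?_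
        · have := (neg_le_abs _).trans_lt c2
          rw [Z1, Z2] at this
          linarith
        · rw [Z1, Z2] at c4
          linarith
      · have z0 : Z = 0 := by rw [hZ, hzs, sub_self]
        rw [z0] at Z1 Z2
        simp only [zero_re, zero_im] at Z1 Z2
        refine alg_zero (p := -(A.re * B.re + A.im * B.im)) (q := A.im * B.re - A.re * B.im)
          (a := A.re * A.re + A.im * A.im) (b := B.re * B.re + B.im * B.im) (l := l)
          (by linarith) na nb l0 l1 ?_ ?_ ?_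
        · linear_combination B.im * Z1 - B.re * Z2
        · linear_combination -B.re * Z1 - B.im * Z2
        · linear_combination -A.im * Z1 + A.re * Z2
      · have c1 := ho z y hzs (by linarith) h' (by linarith)
        have c4 := hx x z (by linarith) h hzs (by linarith)
        rw [← hB, ← hZ] at c1
        rw [← hA, ← hZ] at c4
        simp only [Narrow, mul_re, mul_im, conj_re, conj_im] at c1 c4
        refine alg_out (p := -(A.re * B.re + A.im * B.im)) (q := A.im * B.re - A.re * B.im)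
          (a := A.re * A.re + A.im * A.im) (b := B.re * B.re + B.im * B.im) (l := l)
          (by linarith) na nb l0 l1 ?_ ?_
        · have := (le_abs_self _).trans_lt c1
          rw [Z1, Z2] at this
          linarith
        · rw [Z1, Z2] at c4
          linarith
    · -- y = s
      have B0 : B = 0 := by rw [hB, ← h', sub_self]
      rw [B0] at Z1 Z2
      simp only [zero_re, zero_im] at Z1 Z2
      rcases lt_trichotomy z s with hzs | hzs | hzs
      · have c2 := hi z x (by linarith) hzs (by linarith) h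
        rw [← hA, ← hZ] at c2
        simp only [Narrow, mul_re, mul_im, conj_re, conj_im] at c2
        have := (neg_le_abs _).trans_lt c2
        rw [Z1, Z2] at this
        nlinarith [mul_nonneg l0 na]
      · have z0 : Z = 0 := by rw [hZ, hzs, sub_self]
        rw [z0] at Z1 Z2
        simp only [zero_re, zero_im] at Z1 Z2
        have hn : A.re * A.re + A.im * A.im = 0 := by linear_combination -A.im * Z1 + A.re * Z2
        refine hxs x ?_ (by linarith) (by linarith) h.ne
        rw [← hA]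
        have a1 : A.re = 0 := by nlinarith [mul_self_nonneg A.re, mul_self_nonneg A.im]
        have a2 : A.im = 0 := by nlinarith [mul_self_nonneg A.re, mul_self_nonneg A.im]
        exact Complex.ext a1 a2
      · have c4 := hx x z (by linarith) h hzs (by linarith)
        rw [← hA, ← hZ] at c4
        simp only [mul_re, conj_re, conj_im] at c4
        rw [Z1, Z2] at c4
        nlinarith [mul_nonneg (sub_nonneg.2 l1) na]
  · -- x = s
    have A0 : A = 0 := by rw [hA, h, sub_self]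
    have h' : s < y := by linarith
    rw [A0] at Z1 Z2
    simp only [zero_re, zero_im] at Z1 Z2
    rcases lt_trichotomy z s with hzs | hzs | hzs
    · have c4 := hx z y (by linarith) hzs h' (by linarith)
      rw [← hB, ← hZ] at c4
      simp only [mul_re, conj_re, conj_im] at c4
      rw [Z1, Z2] at c4
      nlinarith [mul_nonneg l0 nb]
    · have z0 : Z = 0 := by rw [hZ, hzs, sub_self]
      rw [z0] at Z1 Z2
      simp only [zero_re, zero_im] at Z1 Z2
      have hn : B.re * B.re + B.im * B.im = 0 := by linear_combination B.im * Z1 - B.re * Z2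
      refine hxs y ?_ (by linarith) (by linarith) h'.ne'
      rw [← hB]
      have a1 : B.re = 0 := by nlinarith [mul_self_nonneg B.re, mul_self_nonneg B.im]
      have a2 : B.im = 0 := by nlinarith [mul_self_nonneg B.re, mul_self_nonneg B.im]
      exact Complex.ext a1 a2
    · have c1 := ho z y hzs (by linarith) h' (by linarith)
      rw [← hB, ← hZ] at c1
      simp only [Narrow, mul_re, mul_im, conj_re, conj_im] at c1
      have := (le_abs_self _).trans_lt c1
      rw [Z1, Z2] at this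
      nlinarith [mul_nonneg (sub_nonneg.2 l1) nb]

/-- the vertices of small squares over chords around a wide corner lie on the same side -/
theorem wide_sign (L : Loop c) (J : Inj c) {s : ℝ} (h : Wide c s) : ∃ ρ > 0, ρ ≤ 1 / 2 ∧
    ∀ x y : ℝ, s - ρ < x → x ≤ s → s ≤ y → y < s + ρ → x < y →
      0 < mgc c (DD c x y) * mgc c (CC c x y) := by
  obtain ⟨ρ, hρ, hρ2, hseg⟩ := wide_seg L J h
  refine ⟨ρ, hρ, hρ2, fun x y h1 h2 h3 h4 hxy => ?_⟩
  have hM := (mgc_sg L).cont
  have nz : ∀ z, z ∉ range c → mgc c z ≠ 0 := fun z h hz => h ((mgc_sg L).zero L |>.1 hz)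
  have := sign_pre (V := Icc (0:ℝ) 1) isPreconnected_Icc
    (f := fun l : ℝ => mgc c (c x + l * (c y - c x) + I * (c y - c x))) (by fun_prop)
    (fun l hl => nz _ (hseg x y h1 h2 h3 h4 hxy l hl)) (z := 0) (w := 1) (by simp) (by simp)
  rw [DD_eq, CC_eq]
  simpa using this

/-- constant number of half turns for short chords around `s` -/
def WL (θ : ℝ → ℝ → ℝ) (s : ℝ) (k : ℤ) : Prop := ∃ ρ > 0, ∀ x y : ℝ, s - ρ < x → x ≤ s → s ≤ y →
  y < s + ρ → x < y → ⌊θ x y / Real.pi⌋ = k

theorem exWL (L : Loop c) (J : Inj c) (A : Ang c (mgc c) θ g) {s : ℝ} (h : Wide c s) :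
    ∃ k, WL θ s k := by
  obtain ⟨ρ, hρ, hρ2, hs⟩ := wide_sign L J h
  refine ⟨⌊θ s (s + ρ / 2) / Real.pi⌋, ρ, hρ, fun x y h1 h2 h3 h4 hxy => ?_⟩
  have hconv : Convex ℝ {p : ℝ × ℝ | s - ρ < p.1 ∧ p.1 ≤ s ∧ s ≤ p.2 ∧ p.2 < s + ρ ∧ p.1 < p.2} := by
    have e : {p : ℝ × ℝ | s - ρ < p.1 ∧ p.1 ≤ s ∧ s ≤ p.2 ∧ p.2 < s + ρ ∧ p.1 < p.2} =
        (Ioc (s - ρ) s ×ˢ Ico s (s + ρ)) ∩ {p : ℝ × ℝ | 0 < (-1 : ℝ) * p.1 + p.2} := by
      ext p
      simp only [mem_ofPred_eq, mem_inter_iff, mem_prod, mem_Ioc, mem_Ico]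
      constructor
      · rintro ⟨a1, a2, a3, a4, a5⟩
        exact ⟨⟨⟨a1, a2⟩, a3, a4⟩, by linarith⟩
      · rintro ⟨⟨⟨a1, a2⟩, a3, a4⟩, a5⟩
        exact ⟨a1, a2, a3, a4, by linarith⟩
    rw [e]
    refine ((convex_Ioc _ _).prod (convex_Ico _ _)).inter ?_
    exact convex_halfSpace_gt (f := fun p : ℝ × ℝ => (-1 : ℝ) * p.1 + p.2)
      ⟨fun p q => by simp only [Prod.fst_add, Prod.snd_add]; ring,
        fun k p => by simp only [Prod.smul_fst, Prod.smul_snd, smul_eq_mul]; ring⟩ 0
  refine floor_pre hconv.isPreconnected (f := fun p => θ p.1 p.2) (A.cont.mono ?_) (fun p hp => ?_)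
    (z := (x, y)) (w := (s, s + ρ / 2)) ⟨h1, h2, h3, h4, hxy⟩
    ⟨by simp only; linarith, le_rfl, by simp only; linarith, by simp only; linarith,
      by simp only; linarith⟩
  · rintro p ⟨a1, a2, a3, a4, a5⟩
    exact ⟨a5, by linarith⟩
  · obtain ⟨a1, a2, a3, a4, a5⟩ := hp
    have := hs p.1 p.2 a1 a2 a3 a4 a5
    obtain ⟨r, hr, -, e2⟩ := A.ex p.1 p.2 a5 (by linarith)
    have h2 := right_ne_zero_of_mul this.ne'
    rw [e2] at h2
    exact right_ne_zero_of_mul h2

theorem WL.uniq {s : ℝ} {k k' : ℤ} (h : WL θ s k) (h' : WL θ s k') : k = k' := by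
  obtain ⟨ρ, hρ, H⟩ := h
  obtain ⟨ρ', hρ', H'⟩ := h'
  have hm : 0 < min ρ ρ' := lt_min hρ hρ'
  have m1 := min_le_left ρ ρ'
  have m2 := min_le_right ρ ρ'
  rw [← H s (s + min ρ ρ' / 2) (by linarith) le_rfl (by linarith) (by linarith) (by linarith),
    H' s (s + min ρ ρ' / 2) (by linarith) le_rfl (by linarith) (by linarith) (by linarith)]

theorem KL.wl {s : ℝ} {k : ℤ} (h : KL θ s k) : WL θ s k := by
  obtain ⟨ρ, hρ, H⟩ := h
  refine ⟨ρ, hρ, fun x y h1 h2 h3 h4 hxy => H x y ?_ ?_ hxy⟩ <;> rw [abs_lt] <;>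
    constructor <;> linarith

theorem WL.per (A : Ang c (mgc c) θ g) {s : ℝ} {k : ℤ} (h : WL θ s k) :
    WL θ (s + 1) (k + 2 * g) := by
  obtain ⟨ρ0, hρ0, hs⟩ := h
  obtain ⟨ρ, hρ, hρ1, hρ2⟩ : ∃ ρ > 0, ρ ≤ ρ0 ∧ ρ ≤ 1 / 2 :=
    ⟨min ρ0 (1 / 2), by positivity, min_le_left _ _, min_le_right _ _⟩
  refine ⟨ρ, hρ, fun x y h1 h2 h3 h4 hxy => ?_⟩
  have e := A.per (x - 1) (y - 1) (by linarith) (by linarith)
  rw [sub_add_cancel, sub_add_cancel] at e
  rw [e, ← hs (x - 1) (y - 1) (by linarith) (by linarith) (by linarith) (by linarith)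
    (by linarith), add_div, show (g : ℝ) * (2 * Real.pi) / Real.pi = ((2 * g : ℤ) : ℝ) by
      push_cast; field_simp, Int.floor_add_intCast]

end Pool.Agent.T2H16
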